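import Pool.Agent.XV.Mem
import Pool.Agent.XV.M2

/-!
# Exact values of `T (P × P)` for the 2-groups with Frattini subgroup of order two: definitions
-/

set_option autoImplicit false

open Module

namespace Pool.Agent.XV2

open Pool.Agent.APG Pool.Agent.XV Pool.Agent.Helper19.PCP

section two

variable {V W : Type} [AddCommGroup V] [AddCommGroup W] [Module (ZMod 2) V] [Module (ZMod 2) W]

/-- the normal form of a 2-group with Frattini subgroup of order two -/
structure Two (q : Dat 2 V W) (om : V →ₗ[ZMod 2] V →ₗ[ZMod 2] ZMod 2) (Q : V → ZMod 2)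
    (w0 : W) : Prop where
  be : ∀ v v', q.be v v' = om v v' • w0
  pw : ∀ v, q.pw v = Q v • w0
  w0 : w0 ≠ 0
  alt : ∀ v, om v v = 0
  add : ∀ v v', Q (v + v') = Q v + Q v' + om v v'

/-- totally singular subspaces -/
def TS (Q : V → ZMod 2) (A : Submodule (ZMod 2) V) : Prop := ∀ a ∈ A, Q a = 0

end two

section model

variable {T W : Type} [AddCommGroup T] [AddCommGroup W] [Module (ZMod 2) T] [Module (ZMod 2) W]

/-- the model group: the central extension of `T × T` by `W` with cocycle `dot t u' • w0` -/
@[ext] structure HG (dot : T →ₗ[ZMod 2] T →ₗ[ZMod 2] ZMod 2) (w0 : W) where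
  /-- first coordinate -/
  t : T
  /-- second coordinate -/
  u : T
  /-- central coordinate -/
  w : W

variable (dot : T →ₗ[ZMod 2] T →ₗ[ZMod 2] ZMod 2) (w0 : W)

instance : Mul (HG dot w0) := ⟨fun x y => ⟨x.t + y.t, x.u + y.u, x.w + y.w + dot x.t y.u • w0⟩⟩

instance : One (HG dot w0) := ⟨⟨0, 0, 0⟩⟩

instance : Inv (HG dot w0) := ⟨fun x => ⟨-x.t, -x.u, -x.w + dot x.t x.u • w0⟩⟩

variable {dot w0}

@[simp] lemma HG.mul_t (x y : HG dot w0) : (x * y).t = x.t + y.t := rfl
@[simp] lemma HG.mul_u (x y : HG dot w0) : (x * y).u = x.u + y.u := rfl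
@[simp] lemma HG.mul_w (x y : HG dot w0) : (x * y).w = x.w + y.w + dot x.t y.u • w0 := rfl
@[simp] lemma HG.one_t : (1 : HG dot w0).t = 0 := rfl
@[simp] lemma HG.one_u : (1 : HG dot w0).u = 0 := rfl
@[simp] lemma HG.one_w : (1 : HG dot w0).w = 0 := rfl
@[simp] lemma HG.inv_t (x : HG dot w0) : (x⁻¹).t = -x.t := rfl
@[simp] lemma HG.inv_u (x : HG dot w0) : (x⁻¹).u = -x.u := rfl
@[simp] lemma HG.inv_w (x : HG dot w0) : (x⁻¹).w = -x.w + dot x.t x.u • w0 := rfl

instance : Group (HG dot w0) :=
  Group.ofLeftAxioms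
    (by
      intro a b c
      apply HG.ext
      · simp only [HG.mul_t]; abel
      · simp only [HG.mul_u]; abel
      · simp only [HG.mul_w, HG.mul_t, HG.mul_u, map_add, LinearMap.add_apply, add_smul]; abel)
    (by
      intro a
      apply HG.ext
      · simp
      · simp
      · simp)
    (by
      intro a
      apply HG.ext
      · simp
      · simp
      · simp only [HG.mul_w, HG.inv_w, HG.inv_t, HG.one_w, map_neg, LinearMap.neg_apply, neg_smul]
        abel)

/-- every vector over `ZMod 2` is its own negative -/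
lemma two_add {E : Type} [AddCommGroup E] [Module (ZMod 2) E] (x : E) : x + x = 0 := by
  rw [← two_smul (ZMod 2) x]
  have h : (2 : ZMod 2) = 0 := by decide
  rw [h, zero_smul]

lemma two_neg {E : Type} [AddCommGroup E] [Module (ZMod 2) E] (x : E) : -x = x :=
  neg_eq_of_add_eq_zero_left (two_add x)

lemma two_sub {E : Type} [AddCommGroup E] [Module (ZMod 2) E] (x y : E) : x - y = x + y := by
  rw [sub_eq_add_neg, two_neg]

variable (dot w0)

/-- the data of the model group -/
def hdat : Dat 2 (T × T) W where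
  be := LinearMap.mk₂ (ZMod 2) (fun v v' => (dot v.1 v'.2 + dot v'.1 v.2) • w0)
    (fun a a' b => by
      rw [← add_smul]
      congr 1
      show dot (a.1 + a'.1) b.2 + dot b.1 (a.2 + a'.2) = _
      rw [map_add, map_add, LinearMap.add_apply]
      ring)
    (fun c a b => by
      show (dot (c • a.1) b.2 + dot b.1 (c • a.2)) • w0 = _
      rw [map_smul, map_smul, LinearMap.smul_apply, ← smul_add, smul_assoc])
    (fun a b b' => by
      rw [← add_smul]
      congr 1
      show dot a.1 (b.2 + b'.2) + dot (b.1 + b'.1) a.2 = _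
      rw [map_add, map_add, LinearMap.add_apply]
      ring)
    (fun c a b => by
      show (dot a.1 (c • b.2) + dot (c • b.1) a.2) • w0 = _
      rw [map_smul, map_smul, LinearMap.smul_apply, ← smul_add, smul_assoc])
  alt := fun v => by
    show (dot v.1 v.2 + dot v.1 v.2) • w0 = 0
    rw [two_add, zero_smul]
  pw := fun v => dot v.1 v.2 • w0
  pw_add := fun v v' => by
    show dot (v.1 + v'.1) (v.2 + v'.2) • w0 = dot v.1 v.2 • w0 + dot v'.1 v'.2 • w0 +
      (Nat.choose 2 2) • ((dot v.1 v'.2 + dot v'.1 v.2) • w0)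
    rw [Nat.choose_self, one_smul, map_add, map_add, LinearMap.add_apply, LinearMap.add_apply,
      ← add_smul, ← add_smul]
    congr 1
    ring

lemma hdat_be (v v' : T × T) : (hdat dot w0).be v v' = (dot v.1 v'.2 + dot v'.1 v.2) • w0 := rfl

lemma hdat_pw (v : T × T) : (hdat dot w0).pw v = dot v.1 v.2 • w0 := rfl

/-- the model group is an extension with these data -/
def HG.toExt : Ext (hdat dot w0) (HG dot w0) where
  pr :=
    { toFun := fun x => Multiplicative.ofAdd (x.t, x.u)
      map_one' := rfl
      map_mul' := fun x y => rfl }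
  inc :=
    { toFun := fun w => ⟨0, 0, w.toAdd⟩
      map_one' := rfl
      map_mul' := fun x y => by
        apply HG.ext
        · simp
        · simp
        · simp }
  surj := fun v => ⟨⟨v.toAdd.1, v.toAdd.2, 0⟩, rfl⟩
  inj := fun x y h => congrArg HG.w h
  exact := by
    ext x
    constructor
    · intro h
      have h1 : (x.t, x.u) = ((0, 0) : T × T) := h
      refine ⟨Multiplicative.ofAdd x.w, ?_⟩
      apply HG.ext
      · exact (congrArg Prod.fst h1).symm
      · exact (congrArg Prod.snd h1).symm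
      · rfl
    · rintro ⟨w, rfl⟩
      rfl
  comm := fun x y => by
    apply HG.ext
    · show x.t + y.t + -x.t + -y.t = 0
      abel
    · show x.u + y.u + -x.u + -y.u = 0
      abel
    · show x.w + y.w + dot x.t y.u • w0 + (-x.w + dot x.t x.u • w0) +
        dot (x.t + y.t) (-x.u) • w0 + (-y.w + dot y.t y.u • w0) +
        dot (x.t + y.t + -x.t) (-y.u) • w0 = (dot x.t y.u + dot y.t x.u) • w0
      have h : x.t + y.t + -x.t = y.t := by abel
      rw [h, two_neg x.u, two_neg y.u, map_add, LinearMap.add_apply, add_smul, add_smul]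
      have h1 := two_add (dot x.t x.u • w0)
      have h2 := two_add (dot y.t y.u • w0)
      generalize dot x.t x.u • w0 = a at *
      generalize dot y.t y.u • w0 = b at *
      generalize dot x.t y.u • w0 = c
      generalize dot y.t x.u • w0 = d
      have e : x.w + y.w + c + (-x.w + a) + (a + d) + (-y.w + b) + b = c + d + (a + a) + (b + b) := by
        abel
      rw [e, h1, h2, add_zero, add_zero]
  pow := fun x => by
    rw [sq]
    apply HG.ext
    · show x.t + x.t = 0
      exact two_add _
    · show x.u + x.u = 0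
      exact two_add _
    · show x.w + x.w + dot x.t x.u • w0 = dot x.t x.u • w0
      rw [two_add, zero_add]

/-- the data of a member of a family of subgroups of `HG × HG` -/
structure Mb2 where
  /-- the image -/
  X : Submodule (ZMod 2) ((T × T) × (T × T))
  /-- the trace -/
  Y : Submodule (ZMod 2) (W × W)
  /-- the section -/
  s : (T × T) × (T × T) → W × W
  coc : ∀ x ∈ X, ∀ x' ∈ X, s (x + x') + s x + s x' +
    ((dot x.1.1 x'.1.2 • w0, dot x.2.1 x'.2.2 • w0) : W × W) ∈ Y

variable {dot w0}

/-- the two members meet trivially -/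
def GP2 (A B : Mb2 dot w0) : Prop :=
  (∀ y ∈ A.Y, y ∈ B.Y → y = 0) ∧
    ∀ x ∈ A.X, x ∈ B.X → ∀ y ∈ A.Y, ∀ z ∈ B.Y, A.s x + B.s x = y + z → x = 0

lemma GP2.symm {A B : Mb2 dot w0} (h : GP2 A B) : GP2 B A := by
  refine ⟨fun y h1 h2 => h.1 y h2 h1, fun x h1 h2 y hy z hz he => ?_⟩
  refine h.2 x h2 h1 z hz y hy ?_
  rw [add_comm, he, add_comm]

variable (dot)

/-- a family of alternating forms with nonsingular differences, with quadratic forms -/
structure Ker (S : Type) where
  /-- the matrices -/
  M : S → T →ₗ[ZMod 2] T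
  /-- the quadratic forms -/
  q : S → T → ZMod 2
  symm : ∀ s a b, dot a (M s b) = dot b (M s a)
  alt : ∀ s a, dot a (M s a) = 0
  inj : ∀ s s', s ≠ s' → ∀ a, M s a = M s' a → a = 0
  q_add : ∀ s a b, q s (a + b) = q s a + q s b + dot a (M s b)

end model

end Pool.Agent.XV2
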