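import Pool.Agent.XV.Kd
import Pool.Agent.XV2.Defs

/-!
# Exact values of `T (P × P)`, `p = 2`: row K
-/

set_option autoImplicit false

open Module

namespace Pool.Agent.XV2

open Pool.Agent.APG Pool.Agent.XV Pool.Agent.Helper19.PCP

/-- ROW K: the Kerdock sets -/
theorem exists_kerdock (m : ℕ) (hm : Even m) (hm2 : 2 ≤ m) :
    ∃ (D : Type) (_ : AddCommGroup D) (_ : Module (ZMod 2) D) (_ : Finite D)
      (dot : D →ₗ[ZMod 2] D →ₗ[ZMod 2] ZMod 2) (S : Type) (_ : Finite S),
      (∀ a b, dot a b = dot b a) ∧ (∀ a, (∀ b, dot a b = 0) → a = 0) ∧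
        finrank (ZMod 2) D = m ∧ Nat.card S = 2 ^ (m - 1) ∧ Nonempty (Ker dot S) := by
  have hf : finrank (ZMod 2) (GaloisField 2 (m - 1)) = m - 1 :=
    GaloisField.finrank 2 (by omega)
  have hodd : finrank (ZMod 2) (GaloisField 2 (m - 1)) % 2 = 1 := by
    rw [hf]
    obtain ⟨n, hn⟩ := hm
    omega
  have hfin : Module.Finite (ZMod 2) (GaloisField 2 (m - 1)) := Module.Finite.of_finite
  choose q hq using fun s : GaloisField 2 (m - 1) => exists_kq s
  refine ⟨GaloisField 2 (m - 1) × ZMod 2, inferInstance, inferInstance, inferInstance,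
    dotK (GaloisField 2 (m - 1)), GaloisField 2 (m - 1), inferInstance, dotK_symm,
    fun a h => dotK_nd h, ?_, GaloisField.card 2 (m - 1) (by omega), ⟨?_⟩⟩
  · rw [finrank_prod, hf, finrank_self]
    omega
  · exact
      { M := kM
        q := q
        symm := kM_symm
        alt := kM_alt
        inj := fun s s' hs a h => kM_inj hodd hs h
        q_add := hq }

end Pool.Agent.XV2
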