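import Pool.Agent.XV2.Defs
import Pool.Agent.XV.M1

/-!
# Partial congruence partitions from families of members
-/

set_option autoImplicit false

open Module

namespace Pool.Agent.XV2

open Pool.Agent.APG Pool.Agent.XV Pool.Agent.Helper19.PCP

variable {D W : Type} [AddCommGroup D] [AddCommGroup W] [Module (ZMod 2) D] [Module (ZMod 2) W]
  {dot : D →ₗ[ZMod 2] D →ₗ[ZMod 2] ZMod 2} {w0 : W}

/-- the vector part -/
def vp (g : HG dot w0 × HG dot w0) : (D × D) × (D × D) := ((g.1.t, g.1.u), (g.2.t, g.2.u))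

/-- the central part -/
def wp (g : HG dot w0 × HG dot w0) : W × W := (g.1.w, g.2.w)

lemma Mb2.s_zero (m : Mb2 dot w0) : m.s 0 ∈ m.Y := by
  have h := m.coc 0 m.X.zero_mem 0 m.X.zero_mem
  rw [add_zero] at h
  have h1 : ((dot (0 : (D × D) × (D × D)).1.1 (0 : (D × D) × (D × D)).1.2 • w0,
      dot (0 : (D × D) × (D × D)).2.1 (0 : (D × D) × (D × D)).2.2 • w0) : W × W) = 0 := by
    show ((dot 0 0 • w0, dot 0 0 • w0) : W × W) = 0
    rw [map_zero, zero_smul]
    rfl
  rw [h1, add_zero, two_add, zero_add] at h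
  exact h

/-- the subgroup of a member -/
def msub (m : Mb2 dot w0) : Subgroup (HG dot w0 × HG dot w0) where
  carrier := {g | vp g ∈ m.X ∧ wp g + m.s (vp g) ∈ m.Y}
  one_mem' := by
    constructor
    · exact m.X.zero_mem
    · show (0 : W × W) + m.s 0 ∈ m.Y
      rw [zero_add]
      exact m.s_zero
  mul_mem' := by
    rintro g g' ⟨h1, h2⟩ ⟨h1', h2'⟩
    constructor
    · exact m.X.add_mem h1 h1'
    · have h3 := m.coc _ h1 _ h1'
      have h4 := m.Y.add_mem (m.Y.add_mem h2 h2') h3
      have e : wp (g * g') + m.s (vp (g * g')) = wp g + m.s (vp g) + (wp g' + m.s (vp g')) +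
          (m.s (vp g + vp g') + m.s (vp g) + m.s (vp g') +
            ((dot (vp g).1.1 (vp g').1.2 • w0, dot (vp g).2.1 (vp g').2.2 • w0) : W × W)) := by
        have e1 : vp (g * g') = vp g + vp g' := rfl
        have e2 : wp (g * g') = wp g + wp g' +
            ((dot (vp g).1.1 (vp g').1.2 • w0, dot (vp g).2.1 (vp g').2.2 • w0) : W × W) := rfl
        rw [e1, e2]
        have h5 := two_add (m.s (vp g))
        have h6 := two_add (m.s (vp g'))
        generalize m.s (vp g) = a at *
        generalize m.s (vp g') = b at *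
        generalize m.s (vp g + vp g') = c at *
        have e3 : wp g + a + (wp g' + b) + (c + a + b +
            ((dot (vp g).1.1 (vp g').1.2 • w0, dot (vp g).2.1 (vp g').2.2 • w0) : W × W)) =
            wp g + wp g' +
            ((dot (vp g).1.1 (vp g').1.2 • w0, dot (vp g).2.1 (vp g').2.2 • w0) : W × W) + c +
            (a + a) + (b + b) := by abel
        rw [e3, h5, h6, add_zero, add_zero]
      show wp (g * g') + m.s (vp (g * g')) ∈ m.Y
      rw [e]
      exact h4
  inv_mem' := by
    rintro g ⟨h1, h2⟩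
    constructor
    · exact m.X.neg_mem h1
    · have h3 := m.coc _ h1 _ h1
      rw [two_add] at h3
      have h4 := m.Y.add_mem (m.Y.add_mem h2 h3) m.s_zero
      have e : wp g⁻¹ + m.s (vp g⁻¹) = wp g + m.s (vp g) + (m.s 0 + m.s (vp g) + m.s (vp g) +
          ((dot (vp g).1.1 (vp g).1.2 • w0, dot (vp g).2.1 (vp g).2.2 • w0) : W × W)) + m.s 0 := by
        have e1 : vp g⁻¹ = vp g := two_neg (vp g)
        have e2 : wp g⁻¹ = wp g +
            ((dot (vp g).1.1 (vp g).1.2 • w0, dot (vp g).2.1 (vp g).2.2 • w0) : W × W) := by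
          show ((-g.1.w + dot g.1.t g.1.u • w0, -g.2.w + dot g.2.t g.2.u • w0) : W × W) = _
          rw [two_neg, two_neg]
          rfl
        rw [e1, e2]
        have h5 := two_add (m.s (vp g))
        have h6 := two_add (m.s 0)
        generalize m.s (vp g) = a at *
        generalize m.s 0 = b at *
        have e3 : wp g + a + (b + a + a +
            ((dot (vp g).1.1 (vp g).1.2 • w0, dot (vp g).2.1 (vp g).2.2 • w0) : W × W)) + b =
            wp g + ((dot (vp g).1.1 (vp g).1.2 • w0, dot (vp g).2.1 (vp g).2.2 • w0) : W × W) + a +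
            (a + a) + (b + b) := by abel
        rw [e3, h5, h6, add_zero, add_zero]
      show wp g⁻¹ + m.s (vp g⁻¹) ∈ m.Y
      rw [e]
      exact h4

lemma card_msub (m : Mb2 dot w0) : Nat.card (msub m) = Nat.card m.X * Nat.card m.Y := by
  rw [← Nat.card_prod]
  refine Nat.card_congr
    { toFun := fun g => (⟨vp g.1, g.2.1⟩, ⟨wp g.1 + m.s (vp g.1), g.2.2⟩)
      invFun := fun z => ⟨(⟨z.1.1.1.1, z.1.1.1.2, (z.2.1 + m.s z.1.1).1⟩,
        ⟨z.1.1.2.1, z.1.1.2.2, (z.2.1 + m.s z.1.1).2⟩), ?_⟩
      left_inv := ?_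
      right_inv := ?_ }
  · constructor
    · exact z.1.2
    · show (z.2.1 + m.s z.1.1) + m.s z.1.1 ∈ m.Y
      rw [add_assoc, two_add, add_zero]
      exact z.2.2
  · rintro ⟨⟨⟨t, u, w⟩, ⟨t', u', w'⟩⟩, h1, h2⟩
    apply Subtype.ext
    have h : ((w, w') : W × W) + m.s ((t, u), (t', u')) + m.s ((t, u), (t', u')) = (w, w') := by
      rw [add_assoc, two_add, add_zero]
    apply Prod.ext
    · apply HG.ext
      · rfl
      · rfl
      · exact congrArg Prod.fst h
    · apply HG.ext
      · rfl
      · rfl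
      · exact congrArg Prod.snd h
  · rintro ⟨⟨x, hx⟩, ⟨y, hy⟩⟩
    apply Prod.ext
    · rfl
    · apply Subtype.ext
      show (y + m.s x) + m.s x = y
      rw [add_assoc, two_add, add_zero]

lemma card_HG : Nat.card (HG dot w0) = Nat.card (D × D) * Nat.card W := by
  rw [← Nat.card_prod]
  exact Nat.card_congr
    { toFun := fun g => ((g.t, g.u), g.w)
      invFun := fun z => ⟨z.1.1, z.1.2, z.2⟩
      left_inv := fun _ => rfl
      right_inv := fun _ => rfl }

instance [Finite D] [Finite W] : Finite (HG dot w0) :=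
  Finite.of_injective (fun g : HG dot w0 => (g.t, g.u, g.w)) (by
    intro x y h
    simp only [Prod.mk.injEq] at h
    exact HG.ext h.1 h.2.1 h.2.2)

/-- ROW M3 -/
theorem le_T_of_mb2 [Finite D] [Finite W] [Nontrivial W] {ι : Type} [Fintype ι]
    (m : ι → Mb2 dot w0)
    (hdim : ∀ i, finrank (ZMod 2) (m i).X + finrank (ZMod 2) (m i).Y =
      2 * finrank (ZMod 2) D + finrank (ZMod 2) W)
    (hGP : ∀ i j, i ≠ j → GP2 (m i) (m j)) : Fintype.card ι ≤ T (HG dot w0 × HG dot w0) := by
  classical
  have hDf : FiniteDimensional (ZMod 2) D := Module.Finite.of_finite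
  have hWf : FiniteDimensional (ZMod 2) W := Module.Finite.of_finite
  let U : ι → Subgroup (HG dot w0 × HG dot w0) := fun i => msub (m i)
  have hcard : ∀ i, Nat.card (U i) = Nat.card (HG dot w0) := by
    intro i
    show Nat.card (msub (m i)) = _
    rw [card_msub, card_HG, Module.natCard_eq_pow_finrank (K := ZMod 2) (V := (m i).X),
      Module.natCard_eq_pow_finrank (K := ZMod 2) (V := (m i).Y),
      Module.natCard_eq_pow_finrank (K := ZMod 2) (V := D × D),
      Module.natCard_eq_pow_finrank (K := ZMod 2) (V := W), ← pow_add, ← pow_add, hdim,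
      finrank_prod, two_mul]
  have hmeet : ∀ i j, i ≠ j → U i ⊓ U j = ⊥ := by
    intro i j hij
    rw [eq_bot_iff]
    rintro g hg
    rw [Subgroup.mem_inf] at hg
    obtain ⟨⟨h1, h2⟩, ⟨h3, h4⟩⟩ := hg
    have h5 : vp g = 0 := by
      refine (hGP i j hij).2 _ h1 h3 _ h2 _ h4 ?_
      have h7 := two_add (wp g)
      have e : wp g + (m i).s (vp g) + (wp g + (m j).s (vp g)) =
        (m i).s (vp g) + (m j).s (vp g) + (wp g + wp g) := by abel
      rw [e, h7, add_zero]
    have h6 : wp g = 0 := by
      apply (hGP i j hij).1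
      · have h8 := (m i).Y.add_mem h2 (m i).s_zero
        rw [h5, add_assoc, two_add, add_zero] at h8
        exact h8
      · have h8 := (m j).Y.add_mem h4 (m j).s_zero
        rw [h5, add_assoc, two_add, add_zero] at h8
        exact h8
    rw [Subgroup.mem_bot]
    apply Prod.ext
    · apply HG.ext
      · exact congrArg (fun x : (D × D) × (D × D) => x.1.1) h5
      · exact congrArg (fun x : (D × D) × (D × D) => x.1.2) h5
      · exact congrArg Prod.fst h6
    · apply HG.ext
      · exact congrArg (fun x : (D × D) × (D × D) => x.2.1) h5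
      · exact congrArg (fun x : (D × D) × (D × D) => x.2.2) h5
      · exact congrArg Prod.snd h6
  have hone : 1 < Nat.card (HG dot w0) := by
    obtain ⟨w, hw⟩ := exists_ne (0 : W)
    have : Nontrivial (HG dot w0) := ⟨⟨0, 0, w⟩, 1, fun h => hw (congrArg HG.w h)⟩
    exact Finite.one_lt_card
  have hinj : Function.Injective U := by
    intro i j h
    by_contra hij
    have h1 := hmeet i j hij
    rw [h, inf_idem] at h1
    have h2 := hcard j
    rw [h1, Subgroup.card_bot] at h2
    omega
  have h := le_T_prod (Finset.univ.image U) (by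
    constructor
    · intro A hA
      rw [Finset.mem_image] at hA
      obtain ⟨i, -, rfl⟩ := hA
      exact hcard i
    · intro A hA B hB hAB
      rw [Finset.mem_image] at hA hB
      obtain ⟨i, -, rfl⟩ := hA
      obtain ⟨j, -, rfl⟩ := hB
      exact hmeet i j (fun h => hAB (by rw [h])))
  rwa [Finset.card_image_of_injective _ hinj, Finset.card_univ] at h

end Pool.Agent.XV2
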