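import Pool.Agent.XV.L3
import Pool.Agent.XV2.M3

/-!
# `|Φ(P)| = 2` (MP_47f3f4_co): row L3, four members
-/

set_option autoImplicit false

open Module

namespace Pool.Agent.XV2

open Pool.Agent.APG Pool.Agent.XV Pool.Agent.Helper19.PCP

section

variable {D W : Type} [AddCommGroup D] [AddCommGroup W] [Module (ZMod 2) D] [Module (ZMod 2) W]
  {dot : D →ₗ[ZMod 2] D →ₗ[ZMod 2] ZMod 2} {w0 : W}

/-- the two kinds of members -/
def convMb (A : Pool.Agent.XV.Mb2 D W) (h : Clo2 dot w0 A) : Mb2 dot w0 where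
  X := A.X
  Y := A.Y
  s := A.s
  coc := by
    intro x hx x' hx'
    have := h x hx x' hx'
    rwa [two_sub, two_sub, two_sub] at this

lemma convGP {A B : Pool.Agent.XV.Mb2 D W} (hA : Clo2 dot w0 A) (hB : Clo2 dot w0 B)
    (h : Pool.Agent.XV.GP2 A B) : GP2 (convMb A hA) (convMb B hB) := by
  refine ⟨h.1, fun x hx hx' y hy z hz he => h.2 x hx hx' y hy z hz ?_⟩
  rw [two_sub]
  exact he

end

variable {D K : Type} [AddCommGroup D] [Module (ZMod 2) D]
  {dot : D →ₗ[ZMod 2] D →ₗ[ZMod 2] ZMod 2} [Field K] [Algebra (ZMod 2) K] [Finite K]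

/-- ROW L3 -/
theorem lower_L3 [Finite D] (hsym : ∀ a b, dot a b = dot b a) (hD : 1 ≤ finrank (ZMod 2) D)
    (hK : 2 ≤ finrank (ZMod 2) K) : 4 ≤ T (HG dot (1 : K) × HG dot (1 : K)) := by
  classical
  have hDf : FiniteDimensional (ZMod 2) D := Module.Finite.of_finite
  have hKf : FiniteDimensional (ZMod 2) K := Module.Finite.of_finite
  have hnt : Nontrivial D := Module.nontrivial_of_finrank_pos (R := ZMod 2) (by omega)
  have h01 : ∀ a : ZMod 2, a ≠ 0 → a = 1 := by decide
  obtain ⟨e, he⟩ := exists_ne (0 : D)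
  obtain ⟨l, hl⟩ := Projective.exists_dual_eq_one (ZMod 2) he
  obtain ⟨h, h1, h2⟩ : ∃ h : K →ₗ[ZMod 2] ZMod 2, h ≠ 0 ∧ h 1 = 0 := by
    have hlt : Submodule.span (ZMod 2) {(1 : K)} < ⊤ := by
      rw [lt_top_iff_ne_top]
      intro h
      have h3 := finrank_span_le_card (R := ZMod 2) ({(1 : K)} : Set K)
      rw [h, finrank_top] at h3
      simp at h3
      omega
    obtain ⟨h, h1, h2⟩ := Submodule.exists_dual_map_eq_bot_of_lt_top hlt inferInstance
    refine ⟨h, h1, ?_⟩
    have h3 : h 1 ∈ (Submodule.span (ZMod 2) {(1 : K)}).map h :=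
      Submodule.mem_map_of_mem (Submodule.mem_span_singleton_self _)
    rw [h2, Submodule.mem_bot] at h3
    exact h3
  obtain ⟨g, hg⟩ : ∃ g, h g = 1 := by
    by_contra hc
    push Not at hc
    apply h1
    apply LinearMap.ext
    intro x
    by_contra h3
    exact hc x (h01 _ h3)
  set H : Submodule (ZMod 2) K := LinearMap.ker h with hH
  have hgH : g ∉ H := by
    rw [hH, LinearMap.mem_ker, hg]
    decide
  have hwH : (1 : K) ∈ H := by
    rw [hH, LinearMap.mem_ker, h2]
  have hHd : finrank (ZMod 2) H + 1 = finrank (ZMod 2) K := by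
    have h3 := LinearMap.finrank_range_add_finrank_ker h
    have h4 : LinearMap.range h = ⊤ := by
      rw [LinearMap.range_eq_top]
      intro a
      exact ⟨a • g, by rw [map_smul, hg, smul_eq_mul, mul_one]⟩
    rw [h4, finrank_top, finrank_self] at h3
    rw [hH]
    omega
  obtain ⟨kap, hk0, hk1⟩ : ∃ kap : K, kap ≠ 0 ∧ kap ≠ 1 := by
    have hF : Fintype K := Fintype.ofFinite K
    have h3 : 2 < Fintype.card K := by
      rw [← Nat.card_eq_fintype_card, Module.natCard_eq_pow_finrank (K := ZMod 2) (V := K),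
        Nat.card_zmod]
      calc 2 < 2 ^ 2 := by norm_num
        _ ≤ 2 ^ finrank (ZMod 2) K := Nat.pow_le_pow_right (by norm_num) hK
    obtain ⟨x, hx, hx'⟩ := Finset.exists_mem_notMem_of_card_lt_card
      (s := ({0, 1} : Finset K)) (t := Finset.univ) (by
        rw [Finset.card_univ]
        exact lt_of_le_of_lt Finset.card_le_two h3)
    rw [Finset.mem_insert, Finset.mem_singleton, not_or] at hx'
    exact ⟨x, hx'.1, hx'.2⟩
  have c0 : Clo2 dot (1 : K) (L3.m0 D kap) := L3.clo0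
  have cd : Clo2 dot (1 : K) (L3.md dot 1) := L3.clod hsym
  have c1 : Clo2 dot (1 : K) (L3.m1 e l H g) := L3.clo1 hwH
  have c2 : Clo2 dot (1 : K) (L3.m2 e l H g) := L3.clo2 hwH
  let m : Fin 4 → Mb2 dot (1 : K) := ![convMb (L3.m0 D kap) c0,
    convMb (L3.md dot 1) cd, convMb (L3.m1 e l H g) c1,
    convMb (L3.m2 e l H g) c2]
  have hm := le_T_of_mb2 m (by
    intro i
    fin_cases i
    · show finrank (ZMod 2) (LinearMap.range (L3.x0 D)) +
        finrank (ZMod 2) (LinearMap.range (grL 2 kap)) = _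
      rw [LinearMap.finrank_range_of_inj L3.x0_inj, LinearMap.finrank_range_of_inj (grL_inj kap),
        finrank_prod]
      ring
    · show finrank (ZMod 2) (LinearMap.range (L3.xd D)) +
        finrank (ZMod 2) (LinearMap.range (grL 2 (1 : K))) = _
      rw [LinearMap.finrank_range_of_inj L3.xd_inj, LinearMap.finrank_range_of_inj (grL_inj 1),
        finrank_prod]
      ring
    · show finrank (ZMod 2) (LinearMap.range (L3.x1 e)) +
        finrank (ZMod 2) (LinearMap.range (L3.yl H)) = _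
      rw [LinearMap.finrank_range_of_inj (L3.x1_inj he),
        LinearMap.finrank_range_of_inj (L3.yl_inj H), finrank_prod, finrank_prod, finrank_self]
      omega
    · show finrank (ZMod 2) (LinearMap.range (L3.x2 e)) +
        finrank (ZMod 2) (LinearMap.range (L3.yr H)) = _
      rw [LinearMap.finrank_range_of_inj (L3.x2_inj he),
        LinearMap.finrank_range_of_inj (L3.yr_inj H), finrank_prod, finrank_prod, finrank_self]
      omega) (by
    have hfin : ∀ i j : Fin 4, i < j → (i = 0 ∧ j = 1) ∨ (i = 0 ∧ j = 2) ∨ (i = 0 ∧ j = 3) ∨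
        (i = 1 ∧ j = 2) ∨ (i = 1 ∧ j = 3) ∨ (i = 2 ∧ j = 3) := by decide
    have k01 : GP2 (m 0) (m 1) := convGP c0 cd (L3.g0d hk1)
    have k02 : GP2 (m 0) (m 2) := convGP c0 c1 (L3.g01 hk0 hl hgH)
    have k03 : GP2 (m 0) (m 3) := convGP c0 c2 (L3.g02 hl hgH)
    have k12 : GP2 (m 1) (m 2) := convGP cd c1 (L3.gd1 hl hgH)
    have k13 : GP2 (m 1) (m 3) := convGP cd c2 (L3.gd2 hl hgH)
    have k23 : GP2 (m 2) (m 3) := convGP c1 c2 (L3.g12 hl hgH)
    have key : ∀ i j : Fin 4, i < j → GP2 (m i) (m j) := by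
      intro i j hij
      rcases hfin i j hij with ⟨rfl, rfl⟩ | ⟨rfl, rfl⟩ | ⟨rfl, rfl⟩ | ⟨rfl, rfl⟩ | ⟨rfl, rfl⟩ |
        ⟨rfl, rfl⟩
      · exact k01
      · exact k02
      · exact k03
      · exact k12
      · exact k13
      · exact k23
    intro i j hij
    rcases lt_or_gt_of_ne hij with h3 | h3
    · exact key i j h3
    · exact (key j i h3).symm)
  rwa [Fintype.card_fin] at hm

end Pool.Agent.XV2
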