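import Pool.Agent.XV2.Defs
import Pool.Agent.XV2.M3
import Pool.Agent.XV.L2

/-!
# Exact values of `T (P × P)` (MP_47f3f4_co), `p = 2`: row L4
-/

set_option autoImplicit false

open Module

namespace Pool.Agent.XV2

open Pool.Agent.APG Pool.Agent.XV Pool.Agent.Helper19.PCP

section L4

variable {D K : Type} [AddCommGroup D] [Module (ZMod 2) D] [Field K] [Algebra (ZMod 2) K]

/-- the image of a member of the first kind -/
def aL4 (M : D →ₗ[ZMod 2] D) : (D × D) →ₗ[ZMod 2] ((D × D) × (D × D)) where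
  toFun x := ((x.1, M x.1), (x.2, M x.2))
  map_add' x y := by
    rw [Prod.fst_add, Prod.snd_add, map_add, map_add]
    rfl
  map_smul' c x := by
    rw [Prod.smul_fst, Prod.smul_snd, map_smul, map_smul]
    rfl

lemma aL4_inj (M : D →ₗ[ZMod 2] D) : Function.Injective (aL4 M) := by
  intro x y h
  exact Prod.ext (congrArg (fun z => z.1.1) h) (congrArg (fun z => z.2.1) h)

/-- `t2 = 0` and `t1 + u2` in the image of `X2` -/
def cL4 (i : K →ₗ[ZMod 2] D) (X2 : Submodule (ZMod 2) K) :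
    ((D × D) × X2) →ₗ[ZMod 2] ((D × D) × (D × D)) where
  toFun x := ((x.1.2 + i x.2, x.1.1), (0, x.1.2))
  map_add' x y := by
    apply Prod.ext
    · apply Prod.ext
      · show x.1.2 + y.1.2 + i ((x.2 : K) + y.2) = (x.1.2 + i x.2) + (y.1.2 + i y.2)
        rw [map_add]
        abel
      · rfl
    · apply Prod.ext
      · exact (add_zero (0 : D)).symm
      · rfl
  map_smul' c x := by
    apply Prod.ext
    · apply Prod.ext
      · show c • x.1.2 + i (c • (x.2 : K)) = c • (x.1.2 + i x.2)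
        rw [map_smul, smul_add]
      · rfl
    · apply Prod.ext
      · exact (smul_zero c).symm
      · rfl

/-- `t1 = 0` and `t2 + u1` in the image of `X1` -/
def dL4 (i : K →ₗ[ZMod 2] D) (X1 : Submodule (ZMod 2) K) :
    ((D × D) × X1) →ₗ[ZMod 2] ((D × D) × (D × D)) where
  toFun x := ((0, x.1.1), (x.1.1 + i x.2, x.1.2))
  map_add' x y := by
    apply Prod.ext
    · apply Prod.ext
      · exact (add_zero (0 : D)).symm
      · rfl
    · apply Prod.ext
      · show x.1.1 + y.1.1 + i ((x.2 : K) + y.2) = (x.1.1 + i x.2) + (y.1.1 + i y.2)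
        rw [map_add]
        abel
      · rfl
  map_smul' c x := by
    apply Prod.ext
    · apply Prod.ext
      · exact (smul_zero c).symm
      · rfl
    · apply Prod.ext
      · show c • x.1.1 + i (c • (x.2 : K)) = c • (x.1.1 + i x.2)
        rw [map_smul, smul_add]
      · rfl

lemma cL4_inj {i : K →ₗ[ZMod 2] D} (hi : Function.Injective i) (X2 : Submodule (ZMod 2) K) :
    Function.Injective (cL4 i X2) := by
  intro x y h
  have h1 : x.1.1 = y.1.1 := congrArg (fun z => z.1.2) h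
  have h2 : x.1.2 = y.1.2 := congrArg (fun z => z.2.2) h
  have h3 : x.1.2 + i x.2 = y.1.2 + i y.2 := congrArg (fun z => z.1.1) h
  rw [h2] at h3
  exact Prod.ext (Prod.ext h1 h2) (Subtype.ext (hi (add_left_cancel h3)))

lemma dL4_inj {i : K →ₗ[ZMod 2] D} (hi : Function.Injective i) (X1 : Submodule (ZMod 2) K) :
    Function.Injective (dL4 i X1) := by
  intro x y h
  have h1 : x.1.1 = y.1.1 := congrArg (fun z => z.1.2) h
  have h2 : x.1.2 = y.1.2 := congrArg (fun z => z.2.2) h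
  have h3 : x.1.1 + i x.2 = y.1.1 + i y.2 := congrArg (fun z => z.2.1) h
  rw [h1] at h3
  exact Prod.ext (Prod.ext h1 h2) (Subtype.ext (hi (add_left_cancel h3)))

variable {dot : D →ₗ[ZMod 2] D →ₗ[ZMod 2] ZMod 2}

/-- a member in the coordinates given by `Th` -/
def mkTh (Th : (K × K) ≃ₗ[ZMod 2] (K × K)) (X : Submodule (ZMod 2) ((D × D) × (D × D)))
    (Y : Submodule (ZMod 2) (K × K)) (s : (D × D) × (D × D) → K × K)
    (h : ∀ x ∈ X, ∀ x' ∈ X, s (x + x') + s x + s x' +
      Th (dot x.1.1 x'.1.2 • (1 : K), dot x.2.1 x'.2.2 • (1 : K)) ∈ Y) : Mb2 dot (1 : K) where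
  X := X
  Y := Y.comap Th.toLinearMap
  s := fun x => Th.symm (s x)
  coc := by
    intro x hx x' hx'
    show Th (Th.symm (s (x + x')) + Th.symm (s x) + Th.symm (s x') +
      (dot x.1.1 x'.1.2 • (1 : K), dot x.2.1 x'.2.2 • (1 : K))) ∈ Y
    rw [map_add, map_add, map_add, Th.apply_symm_apply, Th.apply_symm_apply, Th.apply_symm_apply]
    exact h x hx x' hx'

lemma mkTh_GP {Th : (K × K) ≃ₗ[ZMod 2] (K × K)} {X X' : Submodule (ZMod 2) ((D × D) × (D × D))}
    {Y Y' : Submodule (ZMod 2) (K × K)} {s s' : (D × D) × (D × D) → K × K}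
    {h : ∀ x ∈ X, ∀ x' ∈ X, s (x + x') + s x + s x' +
      Th (dot x.1.1 x'.1.2 • (1 : K), dot x.2.1 x'.2.2 • (1 : K)) ∈ Y}
    {h' : ∀ x ∈ X', ∀ x' ∈ X', s' (x + x') + s' x + s' x' +
      Th (dot x.1.1 x'.1.2 • (1 : K), dot x.2.1 x'.2.2 • (1 : K)) ∈ Y'}
    (h1 : ∀ y ∈ Y, y ∈ Y' → y = 0)
    (h2 : ∀ x ∈ X, x ∈ X' → ∀ y ∈ Y, ∀ z ∈ Y', s x + s' x = y + z → x = 0) :
    GP2 (mkTh Th X Y s h) (mkTh Th X' Y' s' h') := by
  constructor
  · intro y hy hy'
    exact (LinearEquiv.map_eq_zero_iff Th).1 (h1 _ hy hy')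
  · intro x hx hx' y hy z hz hs
    refine h2 x hx hx' (Th y) hy (Th z) hz ?_
    have h3 := congrArg Th hs
    rw [map_add, map_add] at h3
    change Th (Th.symm (s x)) + Th (Th.symm (s' x)) = Th y + Th z at h3
    rwa [Th.apply_symm_apply, Th.apply_symm_apply] at h3

lemma thL_inj2 {eps : K} (h : eps ∉ Set.range (algebraMap (ZMod 2) K)) :
    Function.Injective (thL 2 eps) := by
  have hch : CharP K 2 := charP_of_injective_algebraMap (algebraMap (ZMod 2) K).injective 2
  rw [← LinearMap.ker_eq_bot, LinearMap.ker_eq_bot']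
  intro x hx
  rw [thL_apply] at hx
  have h1 : x.1 ^ 2 - x.1 + eps * (x.2 ^ 2 - x.2) = 0 := congrArg Prod.fst hx
  have h2 : x.1 + eps * x.2 = 0 := congrArg Prod.snd hx
  have h3 : x.1 = eps * x.2 := by
    rw [← CharTwo.neg_eq (eps * x.2)]
    exact eq_neg_of_add_eq_zero_left h2
  have h20 : (2 : K) = 0 := CharTwo.two_eq_zero
  rw [h3] at h1
  have h4 : (eps ^ 2 - eps) * x.2 ^ 2 = 0 := by
    linear_combination h1 + (eps * x.2 - eps * x.2 ^ 2) * h20
  have h5 : eps ^ 2 - eps ≠ 0 := by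
    intro h6
    exact h (mem_prime (sub_eq_zero.1 h6))
  have h7 : x.2 = 0 := pow_eq_zero_iff two_ne_zero |>.1 ((mul_eq_zero.1 h4).resolve_left h5)
  rw [h7, mul_zero] at h3
  exact Prod.ext h3 h7

/-- ROW L4 -/
theorem lower_L4 [Finite K] [Finite D] (_hsym : ∀ a b, dot a b = dot b a) {S : Type} [Finite S]
    (k : Ker dot S) (hK : 2 ≤ finrank (ZMod 2) K) (hKD : finrank (ZMod 2) K ≤ finrank (ZMod 2) D)
    (hS : 2 ^ finrank (ZMod 2) K ≤ Nat.card S) :
    2 ^ finrank (ZMod 2) K + 2 ≤ T (HG dot (1 : K) × HG dot (1 : K)) := by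
  classical
  have hDf : FiniteDimensional (ZMod 2) D := Module.Finite.of_finite
  have hKf : FiniteDimensional (ZMod 2) K := Module.Finite.of_finite
  have : Fintype K := Fintype.ofFinite K
  have : Fintype S := Fintype.ofFinite S
  have hKc : Nat.card K = 2 ^ finrank (ZMod 2) K := by
    rw [Module.natCard_eq_pow_finrank (K := ZMod 2) (V := K), Nat.card_zmod]
  -- the indices
  obtain ⟨σ⟩ : Nonempty (K ↪ S) := by
    apply Function.Embedding.nonempty_of_card_le
    rw [← Nat.card_eq_fintype_card, ← Nat.card_eq_fintype_card, hKc]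
    exact hS
  obtain ⟨i, hi⟩ := exists_inj (p := 2) (V := K) (W := D) hKD
  obtain ⟨r, hr⟩ := LinearMap.exists_leftInverse_of_injective i (LinearMap.ker_eq_bot.2 hi)
  have hri : ∀ x, r (i x) = x := fun x => LinearMap.congr_fun hr x
  -- an element outside the prime field
  have heps : ∃ eps : K, eps ∉ Set.range (algebraMap (ZMod 2) K) := by
    by_contra hc
    push Not at hc
    have h3 : Function.Surjective (algebraMap (ZMod 2) K) := hc
    have h4 := Nat.card_le_card_of_surjective _ h3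
    rw [hKc, Nat.card_zmod] at h4
    have h5 : 2 ^ 2 ≤ 2 ^ finrank (ZMod 2) K := Nat.pow_le_pow_right (by omega) hK
    omega
  obtain ⟨eps, heps⟩ := heps
  have hd : Disjoint (Submodule.span (ZMod 2) {(1 : K)}) (Submodule.span (ZMod 2) {eps}) := by
    rw [Submodule.disjoint_def]
    intro x h1 h3
    rw [Submodule.mem_span_singleton] at h1 h3
    obtain ⟨c, rfl⟩ := h1
    obtain ⟨d, hd⟩ := h3
    by_cases hd0 : d = 0
    · rw [← hd, hd0, zero_smul]
    · exfalso
      apply heps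
      refine ⟨c / d, ?_⟩
      have hd1 : algebraMap (ZMod 2) K d ≠ 0 := by
        intro h4
        rw [map_eq_zero] at h4
        exact hd0 h4
      rw [map_div₀, div_eq_iff hd1]
      rw [Algebra.smul_def, Algebra.smul_def, mul_one] at hd
      rw [← hd, mul_comm]
  obtain ⟨X1, h1X, hX⟩ := hd.exists_isCompl
  set X2 : Submodule (ZMod 2) K := Submodule.span (ZMod 2) {eps} with hX2
  have h11 : (1 : K) ∈ X1 := h1X (Submodule.mem_span_singleton_self 1)
  have he2 : eps ∈ X2 := Submodule.mem_span_singleton_self eps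
  have hXX : ∀ x ∈ X1, x ∈ X2 → x = 0 := by
    intro x h3 h4
    have h5 : x ∈ X1 ⊓ X2 := ⟨h3, h4⟩
    rw [hX.inf_eq_bot] at h5
    exact h5
  have hdim : finrank (ZMod 2) X1 + finrank (ZMod 2) X2 = finrank (ZMod 2) K :=
    Submodule.finrank_add_eq_of_isCompl hX
  let Th : (K × K) ≃ₗ[ZMod 2] (K × K) := LinearEquiv.ofInjectiveEndo (thL 2 eps) (thL_inj2 heps)
  have hTh : ∀ a b : ZMod 2, Th (a • (1 : K), b • (1 : K)) = (0, a • (1 : K) + b • eps) := by
    intro a b
    have hpc : ∀ c : ZMod 2, ((c • (1 : K)) ^ 2) = c • (1 : K) := by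
      intro c
      rw [Algebra.smul_def, mul_one, ← map_pow, ZMod.pow_card]
    show thL 2 eps (a • (1 : K), b • (1 : K)) = _
    rw [thL_apply]
    apply Prod.ext
    · show (a • (1 : K)) ^ 2 - a • (1 : K) + eps * ((b • (1 : K)) ^ 2 - b • (1 : K)) = 0
      rw [hpc, hpc]
      ring
    · show a • (1 : K) + eps * (b • (1 : K)) = a • (1 : K) + b • eps
      rw [mul_smul_comm, mul_one]
  have hz : ∀ j, k.q j 0 = 0 := by
    intro j
    have h := k.q_add j 0 0
    rw [add_zero, map_zero, LinearMap.zero_apply, add_zero, two_add] at h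
    exact h
  have hc2 : ∀ x y : K × K, x + y + x + y = 0 := by
    intro x y
    have : x + y + x + y = (x + x) + (y + y) := by abel
    rw [this, two_add, two_add, add_zero]
  -- the members
  have cA : ∀ κ : K, ∀ x ∈ LinearMap.range (aL4 (k.M (σ κ))),
      ∀ x' ∈ LinearMap.range (aL4 (k.M (σ κ))),
      ((0, k.q (σ κ) (x + x').1.1 • (1 : K) + k.q (σ κ) (x + x').2.1 • eps) : K × K) +
        (0, k.q (σ κ) x.1.1 • (1 : K) + k.q (σ κ) x.2.1 • eps) +
        (0, k.q (σ κ) x'.1.1 • (1 : K) + k.q (σ κ) x'.2.1 • eps) +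
      Th (dot x.1.1 x'.1.2 • (1 : K), dot x.2.1 x'.2.2 • (1 : K)) ∈
        LinearMap.range (grL 2 κ) := by
    rintro κ _ ⟨x, rfl⟩ _ ⟨x', rfl⟩
    refine ⟨0, ?_⟩
    rw [map_zero, hTh]
    symm
    apply Prod.ext
    · show (0 : K) + 0 + 0 + 0 = 0
      simp
    · show (k.q (σ κ) (x.1 + x'.1) • (1 : K) + k.q (σ κ) (x.2 + x'.2) • eps) +
        (k.q (σ κ) x.1 • (1 : K) + k.q (σ κ) x.2 • eps) +
        (k.q (σ κ) x'.1 • (1 : K) + k.q (σ κ) x'.2 • eps) +
        (dot x.1 (k.M (σ κ) x'.1) • (1 : K) + dot x.2 (k.M (σ κ) x'.2) • eps) = 0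
      rw [k.q_add, k.q_add]
      generalize k.q (σ κ) x.1 = a1
      generalize k.q (σ κ) x.2 = a2
      generalize k.q (σ κ) x'.1 = a3
      generalize k.q (σ κ) x'.2 = a4
      generalize dot x.1 (k.M (σ κ) x'.1) = a5
      generalize dot x.2 (k.M (σ κ) x'.2) = a6
      have e : (a1 + a3 + a5) • (1 : K) + (a2 + a4 + a6) • eps + (a1 • (1 : K) + a2 • eps) +
          (a3 • (1 : K) + a4 • eps) + (a5 • (1 : K) + a6 • eps) =
          ((a1 + a1) + (a3 + a3) + (a5 + a5)) • (1 : K) +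
          ((a2 + a2) + (a4 + a4) + (a6 + a6)) • eps := by
        simp only [add_smul]
        abel
      rw [e]
      simp only [two_add, zero_smul]
  have cC : ∀ x ∈ LinearMap.range (cL4 i X2), ∀ x' ∈ LinearMap.range (cL4 i X2),
      ((r (x + x').2.2, r ((x + x').1.1 + (x + x').2.2)) : K × K) +
        (r x.2.2, r (x.1.1 + x.2.2)) + (r x'.2.2, r (x'.1.1 + x'.2.2)) +
      Th (dot x.1.1 x'.1.2 • (1 : K), dot x.2.1 x'.2.2 • (1 : K)) ∈
        LinearMap.range ((LinearMap.inr (ZMod 2) K K).comp X1.subtype) := by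
    rintro _ ⟨x, rfl⟩ _ ⟨x', rfl⟩
    refine ⟨⟨dot (x.1.2 + i x.2) x'.1.1 • (1 : K), X1.smul_mem _ h11⟩, ?_⟩
    rw [hTh]
    symm
    apply Prod.ext
    · show r (x.1.2 + x'.1.2) + r x.1.2 + r x'.1.2 + 0 = 0
      rw [map_add, add_zero]
      have : r x.1.2 + r x'.1.2 + r x.1.2 + r x'.1.2 = (r x.1.2 + r x.1.2) +
        (r x'.1.2 + r x'.1.2) := by abel
      rw [this, two_add, two_add, add_zero]
    · show r ((x.1.2 + i x.2) + (x'.1.2 + i x'.2) + (x.1.2 + x'.1.2)) +
        r ((x.1.2 + i x.2) + x.1.2) + r ((x'.1.2 + i x'.2) + x'.1.2) +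
        (dot (x.1.2 + i x.2) x'.1.1 • (1 : K) + dot (0 : D) x'.1.2 • eps) =
        dot (x.1.2 + i x.2) x'.1.1 • (1 : K)
      rw [map_zero, LinearMap.zero_apply, zero_smul, add_zero, ← map_add, ← map_add]
      have : (x.1.2 + i x.2) + (x'.1.2 + i x'.2) + (x.1.2 + x'.1.2) + ((x.1.2 + i x.2) + x.1.2) +
        ((x'.1.2 + i x'.2) + x'.1.2) = (x.1.2 + x.1.2) + (x.1.2 + x.1.2) + (x'.1.2 + x'.1.2) +
        (x'.1.2 + x'.1.2) + (i x.2 + i x.2) + (i x'.2 + i x'.2) := by abel
      rw [this]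
      simp only [two_add, map_zero, zero_add]
  have cD : ∀ x ∈ LinearMap.range (dL4 i X1), ∀ x' ∈ LinearMap.range (dL4 i X1),
      ((r (x + x').1.2, r ((x + x').2.1 + (x + x').1.2)) : K × K) +
        (r x.1.2, r (x.2.1 + x.1.2)) + (r x'.1.2, r (x'.2.1 + x'.1.2)) +
      Th (dot x.1.1 x'.1.2 • (1 : K), dot x.2.1 x'.2.2 • (1 : K)) ∈
        LinearMap.range ((LinearMap.inr (ZMod 2) K K).comp X2.subtype) := by
    rintro _ ⟨x, rfl⟩ _ ⟨x', rfl⟩
    refine ⟨⟨dot (x.1.1 + i x.2) x'.1.2 • eps, X2.smul_mem _ he2⟩, ?_⟩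
    rw [hTh]
    symm
    apply Prod.ext
    · show r (x.1.1 + x'.1.1) + r x.1.1 + r x'.1.1 + 0 = 0
      rw [map_add, add_zero]
      have : r x.1.1 + r x'.1.1 + r x.1.1 + r x'.1.1 = (r x.1.1 + r x.1.1) +
        (r x'.1.1 + r x'.1.1) := by abel
      rw [this, two_add, two_add, add_zero]
    · show r ((x.1.1 + i x.2) + (x'.1.1 + i x'.2) + (x.1.1 + x'.1.1)) +
        r ((x.1.1 + i x.2) + x.1.1) + r ((x'.1.1 + i x'.2) + x'.1.1) +
        (dot (0 : D) x'.1.1 • (1 : K) + dot (x.1.1 + i x.2) x'.1.2 • eps) =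
        dot (x.1.1 + i x.2) x'.1.2 • eps
      rw [map_zero, LinearMap.zero_apply, zero_smul, zero_add, ← map_add, ← map_add]
      have : (x.1.1 + i x.2) + (x'.1.1 + i x'.2) + (x.1.1 + x'.1.1) + ((x.1.1 + i x.2) + x.1.1) +
        ((x'.1.1 + i x'.2) + x'.1.1) = (x.1.1 + x.1.1) + (x.1.1 + x.1.1) + (x'.1.1 + x'.1.1) +
        (x'.1.1 + x'.1.1) + (i x.2 + i x.2) + (i x'.2 + i x'.2) := by abel
      rw [this]
      simp only [two_add, map_zero, zero_add]
  let mA : K → Mb2 dot (1 : K) := fun κ => mkTh Th (LinearMap.range (aL4 (k.M (σ κ))))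
    (LinearMap.range (grL 2 κ))
    (fun x => (0, k.q (σ κ) x.1.1 • (1 : K) + k.q (σ κ) x.2.1 • eps)) (cA κ)
  let mC : Mb2 dot (1 : K) := mkTh Th (LinearMap.range (cL4 i X2))
    (LinearMap.range ((LinearMap.inr (ZMod 2) K K).comp X1.subtype))
    (fun x => (r x.2.2, r (x.1.1 + x.2.2))) cC
  let mD : Mb2 dot (1 : K) := mkTh Th (LinearMap.range (dL4 i X1))
    (LinearMap.range ((LinearMap.inr (ZMod 2) K K).comp X2.subtype))
    (fun x => (r x.1.2, r (x.2.1 + x.1.2))) cD
  let m : K ⊕ Bool → Mb2 dot (1 : K) := fun j => match j with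
    | Sum.inl κ => mA κ
    | Sum.inr true => mC
    | Sum.inr false => mD
  have hcard : Fintype.card (K ⊕ Bool) = 2 ^ finrank (ZMod 2) K + 2 := by
    rw [Fintype.card_sum, Fintype.card_bool, ← Nat.card_eq_fintype_card, hKc]
  have hAA : ∀ κ κ', κ ≠ κ' → GP2 (mA κ) (mA κ') := by
    intro κ κ' hne
    refine mkTh_GP ?_ ?_
    · rintro _ ⟨x, rfl⟩ ⟨y, hy⟩
      rw [grL_apply, grL_apply, Prod.mk.injEq] at hy
      obtain ⟨rfl, h3⟩ := hy
      have h4 : (κ - κ') * y = 0 := by rw [sub_mul, h3, sub_self]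
      have h5 := (mul_eq_zero.1 h4).resolve_left (sub_ne_zero.2 hne)
      rw [h5, map_zero]
    · rintro _ ⟨x, rfl⟩ ⟨x', hx'⟩ y _ z _ _
      have h1 : x'.1 = x.1 := congrArg (fun z => z.1.1) hx'
      have h2 : k.M (σ κ') x'.1 = k.M (σ κ) x.1 := congrArg (fun z => z.1.2) hx'
      have h3 : x'.2 = x.2 := congrArg (fun z => z.2.1) hx'
      have h4 : k.M (σ κ') x'.2 = k.M (σ κ) x.2 := congrArg (fun z => z.2.2) hx'
      rw [h1] at h2
      rw [h3] at h4
      have hσ : σ κ ≠ σ κ' := fun h => hne (σ.injective h)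
      have h5 : x = 0 := Prod.ext (k.inj _ _ hσ _ h2.symm) (k.inj _ _ hσ _ h4.symm)
      rw [h5, map_zero]
  have hAC : ∀ κ, GP2 (mA κ) mC := by
    intro κ
    refine mkTh_GP ?_ ?_
    · rintro _ ⟨x, rfl⟩ ⟨y, hy⟩
      rw [grL_apply] at hy
      have h1 : (0 : K) = x := congrArg Prod.fst hy
      rw [← h1, map_zero]
    · rintro _ ⟨x, rfl⟩ ⟨x', hx'⟩ _ ⟨y, rfl⟩ _ ⟨z, rfl⟩ hs
      have h1 : 0 = x.2 := congrArg (fun z => z.2.1) hx'
      have h2 : x'.1.2 = k.M (σ κ) x.2 := congrArg (fun z => z.2.2) hx'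
      have h3 : x'.1.2 + i x'.2 = x.1 := congrArg (fun z => z.1.1) hx'
      rw [← h1, map_zero] at h2
      rw [h2, zero_add] at h3
      have h4 : (0 : K) + r (k.M (σ κ) x.2) = y + 0 := congrArg Prod.fst hs
      have h5 : (k.q (σ κ) x.1 • (1 : K) + k.q (σ κ) x.2 • eps) + r (x.1 + k.M (σ κ) x.2) =
        κ * y + z := congrArg Prod.snd hs
      rw [← h1, map_zero, map_zero, add_zero, add_zero] at h4
      rw [← h1, map_zero, add_zero, ← h4, mul_zero, zero_add, hz, zero_smul, add_zero, ← h3,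
        hri] at h5
      have h6 : (x'.2 : K) = 0 := by
        apply hXX _ _ x'.2.2
        have h7 : (x'.2 : K) = z - k.q (σ κ) (i x'.2) • (1 : K) := by rw [← h5]; abel
        rw [h7]
        exact X1.sub_mem z.2 (X1.smul_mem _ h11)
      have h7 : x.1 = 0 := by rw [← h3, h6, map_zero]
      have h8 : x = 0 := Prod.ext h7 h1.symm
      rw [h8, map_zero]
  have hAD : ∀ κ, GP2 (mA κ) mD := by
    intro κ
    refine mkTh_GP ?_ ?_
    · rintro _ ⟨x, rfl⟩ ⟨y, hy⟩
      rw [grL_apply] at hy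
      have h1 : (0 : K) = x := congrArg Prod.fst hy
      rw [← h1, map_zero]
    · rintro _ ⟨x, rfl⟩ ⟨x', hx'⟩ _ ⟨y, rfl⟩ _ ⟨z, rfl⟩ hs
      have h1 : 0 = x.1 := congrArg (fun z => z.1.1) hx'
      have h2 : x'.1.1 = k.M (σ κ) x.1 := congrArg (fun z => z.1.2) hx'
      have h3 : x'.1.1 + i x'.2 = x.2 := congrArg (fun z => z.2.1) hx'
      rw [← h1, map_zero] at h2
      rw [h2, zero_add] at h3
      have h4 : (0 : K) + r (k.M (σ κ) x.1) = y + 0 := congrArg Prod.fst hs
      have h5 : (k.q (σ κ) x.1 • (1 : K) + k.q (σ κ) x.2 • eps) + r (x.2 + k.M (σ κ) x.1) =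
        κ * y + z := congrArg Prod.snd hs
      rw [← h1, map_zero, map_zero, add_zero, add_zero] at h4
      rw [← h1, map_zero, add_zero, ← h4, mul_zero, zero_add, hz, zero_smul, zero_add, ← h3,
        hri] at h5
      have h6 : (x'.2 : K) = 0 := by
        apply hXX _ x'.2.2
        have h7 : (x'.2 : K) = z - k.q (σ κ) (i x'.2) • eps := by rw [← h5]; abel
        rw [h7]
        exact X2.sub_mem z.2 (X2.smul_mem _ he2)
      have h7 : x.2 = 0 := by rw [← h3, h6, map_zero]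
      have h8 : x = 0 := Prod.ext h1.symm h7
      rw [h8, map_zero]
  have hCD : GP2 mC mD := by
    refine mkTh_GP ?_ ?_
    · rintro _ ⟨x, rfl⟩ ⟨y, hy⟩
      have h1 : (y : K) = x := congrArg Prod.snd hy
      have h2 : (x : K) = 0 := hXX _ x.2 (h1 ▸ y.2)
      show ((0 : K), (x : K)) = 0
      rw [h2]
      rfl
    · rintro _ ⟨x, rfl⟩ ⟨x', hx'⟩ _ ⟨y, rfl⟩ _ ⟨z, rfl⟩ hs
      have h1 : 0 = x.1.2 + i x.2 := congrArg (fun z => z.1.1) hx'
      have h2 : x'.1.1 = x.1.1 := congrArg (fun z => z.1.2) hx'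
      have h3 : x'.1.1 + i x'.2 = 0 := congrArg (fun z => z.2.1) hx'
      have h4 : r x.1.2 + r x.1.1 = 0 + 0 := congrArg Prod.fst hs
      have h5 : x.1.2 = i x.2 := by
        rw [← two_neg (i x.2)]
        exact eq_neg_of_add_eq_zero_left h1.symm
      have h6 : x.1.1 = i x'.2 := by
        rw [← h2, ← two_neg (i x'.2)]
        exact eq_neg_of_add_eq_zero_left h3
      rw [h5, h6, hri, hri, add_zero] at h4
      have h7 : (x'.2 : K) = x.2 := by
        rw [← two_neg (x.2 : K)]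
        exact eq_neg_of_add_eq_zero_right h4
      have h8 : (x'.2 : K) = 0 := hXX _ x'.2.2 (h7 ▸ x.2.2)
      have h9 : (x.2 : K) = 0 := by rw [← h7, h8]
      have h10 : x.2 = 0 := Subtype.ext h9
      rw [h9, map_zero] at h5
      rw [h8, map_zero] at h6
      have h11 : x = 0 := Prod.ext (Prod.ext h6 h5) h10
      rw [h11, map_zero]
  rw [← hcard]
  have hcom : ∀ Y : Submodule (ZMod 2) (K × K),
      finrank (ZMod 2) (Y.comap Th.toLinearMap) = finrank (ZMod 2) Y := by
    intro Y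
    have h : Y.comap Th.toLinearMap = Y.map Th.symm.toLinearMap := by
      ext y
      rw [Submodule.mem_comap, Submodule.mem_map]
      constructor
      · intro hy
        exact ⟨Th y, hy, Th.symm_apply_apply y⟩
      · rintro ⟨z, hz, rfl⟩
        show Th (Th.symm z) ∈ _
        rwa [Th.apply_symm_apply]
    rw [h, LinearEquiv.finrank_map_eq]
  refine le_T_of_mb2 m ?_ ?_
  · -- dimensions
    rintro (κ | b)
    · show finrank (ZMod 2) (LinearMap.range (aL4 (k.M (σ κ)))) +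
        finrank (ZMod 2) ((LinearMap.range (grL 2 κ)).comap Th.toLinearMap) = _
      rw [hcom, LinearMap.finrank_range_of_inj (aL4_inj _),
        LinearMap.finrank_range_of_inj (grL_inj κ), finrank_prod]
      omega
    · rcases b with _ | _
      · show finrank (ZMod 2) (LinearMap.range (dL4 i X1)) +
          finrank (ZMod 2) ((LinearMap.range ((LinearMap.inr (ZMod 2) K K).comp
            X2.subtype)).comap Th.toLinearMap) = _
        rw [hcom, LinearMap.finrank_range_of_inj (dL4_inj hi X1),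
          LinearMap.finrank_range_of_inj (inr_inj X2), finrank_prod, finrank_prod]
        omega
      · show finrank (ZMod 2) (LinearMap.range (cL4 i X2)) +
          finrank (ZMod 2) ((LinearMap.range ((LinearMap.inr (ZMod 2) K K).comp
            X1.subtype)).comap Th.toLinearMap) = _
        rw [hcom, LinearMap.finrank_range_of_inj (cL4_inj hi X2),
          LinearMap.finrank_range_of_inj (inr_inj X1), finrank_prod, finrank_prod]
        omega
  · -- trivial intersections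
    rintro (κ | b) (κ' | b') hij
    · exact hAA κ κ' (fun hh => hij (by rw [hh]))
    · rcases b' with _ | _
      · exact hAD κ
      · exact hAC κ
    · rcases b with _ | _
      · exact (hAD κ').symm
      · exact (hAC κ').symm
    · rcases b with _ | _ <;> rcases b' with _ | _
      · exact absurd rfl hij
      · exact hCD.symm
      · exact hCD
      · exact absurd rfl hij

end L4

end Pool.Agent.XV2
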