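import Pool.Agent.XV2.M3
import Pool.Agent.XV.Fam5

/-!
# XV2, row L5
-/

set_option autoImplicit false

open Module

namespace Pool.Agent.XV2

open Pool.Agent.APG Pool.Agent.XV Pool.Agent.Helper19.PCP

variable {D : Type} [AddCommGroup D] [Module (ZMod 2) D]
  {dot : D →ₗ[ZMod 2] D →ₗ[ZMod 2] ZMod 2} {K : Type} [Field K] [Algebra (ZMod 2) K] [Finite K]

/-- the elementary abelian case -/
lemma lower_triv [Finite D] (hD : Subsingleton D) :
    2 ^ finrank (ZMod 2) K + 1 ≤ T (HG dot (1 : K) × HG dot (1 : K)) := by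
  classical
  have hKf : FiniteDimensional (ZMod 2) K := Module.Finite.of_finite
  have : Fintype K := Fintype.ofFinite K
  have hz : ∀ x : (D × D) × (D × D), x = 0 := fun x => Subsingleton.elim _ _
  let Ys : Option K → Submodule (ZMod 2) (K × K) := fun i =>
    match i with
    | none => LinearMap.range (LinearMap.inr (ZMod 2) K K)
    | some k => LinearMap.range (L5.fY k)
  have hYd : ∀ i, finrank (ZMod 2) (Ys i) = finrank (ZMod 2) K := by
    rintro (_ | k)
    · exact LinearMap.finrank_range_of_inj LinearMap.inr_injective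
    · exact LinearMap.finrank_range_of_inj (fun x y h => congrArg Prod.fst h)
  let m : Option K → Mb2 dot (1 : K) := fun i =>
    { X := ⊤
      Y := Ys i
      s := fun _ => 0
      coc := by
        intro x _ x' _
        rw [hz x]
        have h : (((dot (0 : (D × D) × (D × D)).1.1 x'.1.2 • (1 : K),
          dot (0 : (D × D) × (D × D)).2.1 x'.2.2 • (1 : K))) : K × K) = 0 := by
          simp
        rw [h, add_zero, add_zero, add_zero]
        exact Submodule.zero_mem _ }
  have h := le_T_of_mb2 m (by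
    intro i
    show finrank (ZMod 2) (⊤ : Submodule (ZMod 2) ((D × D) × (D × D))) + finrank (ZMod 2) (Ys i) = _
    have e1 : finrank (ZMod 2) D = 0 := finrank_zero_of_subsingleton
    have e2 : finrank (ZMod 2) ((D × D) × (D × D)) = 0 := finrank_zero_of_subsingleton
    rw [hYd, finrank_top, e1, e2]) (by
    intro i j hij
    refine ⟨?_, fun x _ _ y _ z _ _ => hz x⟩
    intro y hy hy'
    rcases i with _ | k <;> rcases j with _ | k'
    · exact absurd rfl hij
    · obtain ⟨a, rfl⟩ := hy
      obtain ⟨b, hb⟩ := hy'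
      rw [L5.fY_apply, LinearMap.inr_apply, Prod.mk.injEq] at hb
      rw [← hb.2, hb.1, mul_zero, map_zero]
    · obtain ⟨a, rfl⟩ := hy'
      obtain ⟨b, hb⟩ := hy
      rw [L5.fY_apply, LinearMap.inr_apply, Prod.mk.injEq] at hb
      rw [← hb.2, hb.1, mul_zero, map_zero]
    · obtain ⟨x, rfl⟩ := hy
      obtain ⟨x', hx⟩ := hy'
      rw [L5.fY_apply, L5.fY_apply, Prod.mk.injEq] at hx
      obtain ⟨rfl, h2⟩ := hx
      have h3 : (k' - k) * x' = 0 := by rw [sub_mul, h2, sub_self]
      have h4 : x' = 0 := (mul_eq_zero.1 h3).resolve_left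
        (sub_ne_zero.2 (fun h => hij (by rw [h])))
      rw [h4, map_zero])
  rw [Fintype.card_option, ← Nat.card_eq_fintype_card,
    Module.natCard_eq_pow_finrank (K := ZMod 2) (V := K), Nat.card_zmod] at h
  exact h

/-- ROW L5 (file XV2/L5.lean) -/
theorem lower_L5 [Finite D] (_hsym : ∀ a b, dot a b = dot b a) {S : Type} [Finite S]
    (k : Ker dot S) (hDK : finrank (ZMod 2) D ≤ finrank (ZMod 2) K) (hS2 : 2 ≤ Nat.card S)
    (hS : Nat.card S + 2 ≤ 2 ^ finrank (ZMod 2) K) :
    Nat.card S + 3 ≤ T (HG dot (1 : K) × HG dot (1 : K)) := by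
  classical
  rcases subsingleton_or_nontrivial D with hsub | hnt
  · have h := lower_triv (dot := dot) (K := K) hsub
    omega
  have hKf : FiniteDimensional (ZMod 2) K := Module.Finite.of_finite
  have hDf : FiniteDimensional (ZMod 2) D := Module.Finite.of_finite
  have : Fintype S := Fintype.ofFinite S
  have : Fintype K := Fintype.ofFinite K
  have hcK : Fintype.card K = 2 ^ finrank (ZMod 2) K := by
    rw [← Nat.card_eq_fintype_card, Module.natCard_eq_pow_finrank (K := ZMod 2) (V := K),
      Nat.card_zmod]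
  -- the slopes
  obtain ⟨kap, hk, hk0, hk1⟩ : ∃ kap : S → K, Function.Injective kap ∧ (∀ s, kap s ≠ 0) ∧
      ∀ s, kap s ≠ 1 := by
    have h1 : Fintype.card S ≤ Fintype.card {x : K // x ≠ 0 ∧ x ≠ 1} := by
      have h2 : Fintype.card {x : K // x ≠ 0 ∧ x ≠ 1} = Fintype.card K - 2 := by
        rw [Fintype.card_subtype]
        have h3 : (Finset.univ.filter fun x : K => x ≠ 0 ∧ x ≠ 1) =
            (Finset.univ.erase (0 : K)).erase 1 := by
          ext x
          simp only [Finset.mem_filter, Finset.mem_univ, true_and, Finset.mem_erase, and_true]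
          exact and_comm
        rw [h3, Finset.card_erase_of_mem (by simp), Finset.card_erase_of_mem (Finset.mem_univ _),
          Finset.card_univ]
        omega
      rw [h2, hcK, ← Nat.card_eq_fintype_card]
      omega
    obtain ⟨f⟩ := Function.Embedding.nonempty_of_card_le h1
    exact ⟨fun s => (f s).1, fun a b h => f.injective (Subtype.ext h), fun s => (f s).2.1,
      fun s => (f s).2.2⟩
  -- two different indices
  obtain ⟨s0, s1, hs⟩ : ∃ s0 s1 : S, s0 ≠ s1 := by
    rw [Nat.card_eq_fintype_card] at hS2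
    exact Fintype.exists_pair_of_one_lt_card (by omega)
  -- the functional
  obtain ⟨t0, ht0⟩ := exists_ne (0 : D)
  obtain ⟨lam, hlam⟩ : ∃ lam : D →ₗ[ZMod 2] ZMod 2, lam ≠ 0 := by
    by_contra hcon
    push Not at hcon
    apply ht0
    rw [← Module.forall_dual_apply_eq_zero_iff (ZMod 2)]
    intro f
    rw [hcon f, LinearMap.zero_apply]
  have hL : finrank (ZMod 2) (LinearMap.ker lam) + 1 = finrank (ZMod 2) D := by
    have h := lam.finrank_range_add_finrank_ker
    have h2 : LinearMap.range lam = ⊤ := LinearMap.range_eq_top.2 (LinearMap.surjective hlam)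
    rw [h2, finrank_top, finrank_self] at h
    omega
  -- the complement of the line of `1`
  obtain ⟨E, hE⟩ := (Submodule.span (ZMod 2) {(1 : K)}).exists_isCompl
  have hE1 : finrank (ZMod 2) E + 1 = finrank (ZMod 2) K := by
    have h := Submodule.finrank_add_eq_of_isCompl hE
    rw [finrank_span_singleton (one_ne_zero : (1 : K) ≠ 0)] at h
    omega
  obtain ⟨j, hj⟩ : ∃ j : LinearMap.ker lam →ₗ[ZMod 2] E, Function.Injective j := by
    have h : finrank (ZMod 2) (LinearMap.ker lam) ≤ finrank (ZMod 2) E := by omega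
    exact (finrank_le_iff_exists_linearMap (R := ZMod 2)).1 h
  let j' : LinearMap.ker lam →ₗ[ZMod 2] K := E.subtype.comp j
  have hj' : Function.Injective j' := fun x y h => hj (Subtype.ext h)
  have hdis : Disjoint (Submodule.span (ZMod 2) {(1 : K)}) (LinearMap.range j') := by
    apply Disjoint.mono_right _ hE.disjoint
    rintro _ ⟨x, rfl⟩
    exact (j x).2
  obtain ⟨X0, hX0, hX0c⟩ := hdis.exists_isCompl
  have h1 : (1 : K) ∈ X0 := hX0 (Submodule.mem_span_singleton_self _)
  obtain ⟨a, ha⟩ := LinearMap.exists_extend j'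
  have haj : ∀ t (ht : lam t = 0), a t = j' ⟨t, ht⟩ := by
    intro t ht
    rw [← ha]
    rfl
  have hd1 : finrank (ZMod 2) X0 + finrank (ZMod 2) (LinearMap.range j') = finrank (ZMod 2) K :=
    Submodule.finrank_add_eq_of_isCompl hX0c
  rw [LinearMap.finrank_range_of_inj hj'] at hd1
  obtain ⟨X, Y, s, hcl, hdim, hX, hY⟩ := family5 dot k.M k.q k.q_add k.inj (k.M s1 - k.M s0)
    (fun t ht => k.inj s1 s0 (Ne.symm hs) t (sub_eq_zero.1 ht))
    (fun t => k.q s1 t - k.q s0 t) (by
      intro t t'
      rw [k.q_add, k.q_add, LinearMap.sub_apply, map_sub]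
      ring) kap hk hk0 hk1 lam hlam a X0 h1
    (by
      intro t ht hat
      rw [haj t ht] at hat
      have h2 : j' ⟨t, ht⟩ ∈ X0 ⊓ LinearMap.range j' := ⟨hat, ⟨_, rfl⟩⟩
      rw [hX0c.inf_eq_bot, Submodule.mem_bot] at h2
      have h3 : (⟨t, ht⟩ : LinearMap.ker lam) = 0 := hj' (by rw [h2, map_zero])
      exact congrArg Subtype.val h3)
    (by omega)
  let m : Option (Option (Option S)) → Mb2 dot (1 : K) := fun i =>
    { X := X i
      Y := Y i
      s := s i
      coc := by
        intro x hx x' hx'
        have h := hcl i x hx x' hx'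
        rwa [two_sub, two_sub, two_sub] at h }
  have h := le_T_of_mb2 m hdim (by
    intro i j hij
    refine ⟨?_, ?_⟩
    · intro y hy hy'
      have h2 : y ∈ Y i ⊓ Y j := ⟨hy, hy'⟩
      rw [hY i j hij] at h2
      exact h2
    · intro x hx hx' y hy z hz hyz
      apply hX i j hij x hx hx'
      rw [two_sub]
      have h2 : s i x + s j x = y + z := hyz
      rw [h2]
      exact Submodule.add_mem_sup hy hz)
  rw [Fintype.card_option, Fintype.card_option, Fintype.card_option,
    ← Nat.card_eq_fintype_card] at h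
  omega

end Pool.Agent.XV2
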