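import Pool.Agent.XV.N1
import Pool.Agent.XV2.Defs

/-!
# Row N2: the normal form of a 2-group whose Frattini subgroup has order two
-/

set_option autoImplicit false

open Module

namespace Pool.Agent.XV2

open Pool.Agent.APG Pool.Agent.XV Pool.Agent.Helper19.PCP

/-- ROW N2 -/
theorem exists_two (P : Type) [Group P] [Finite P] (hP : IsPGroup 2 P)
    (_hna : ∃ a b : P, a * b ≠ b * a) (hF : Nat.card (frattini P) = 2) :
    ∃ (d c : ℕ) (q : Dat 2 (Fin d → ZMod 2) (Fin c → ZMod 2))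
      (om : (Fin d → ZMod 2) →ₗ[ZMod 2] (Fin d → ZMod 2) →ₗ[ZMod 2] ZMod 2)
      (Q : (Fin d → ZMod 2) → ZMod 2) (w0 : Fin c → ZMod 2),
      Two q om Q w0 ∧ (∀ v, (∀ v', om v v' = 0) → Q v = 0 → v = 0) ∧ Nonempty (Ext q P) := by
  classical
  have hp : Nat.Prime 2 := Nat.prime_two
  have hcen : frattini P ≤ Subgroup.center P := le_center_of_card hP _ hF
  have hfp : ∀ x ∈ frattini P, x ^ 2 = 1 := by
    intro x hx
    have h := pow_card_eq_one' (x := (⟨x, hx⟩ : frattini P))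
    rw [hF] at h
    exact congrArg Subtype.val h
  have hfW : frattini P ≤ Wsub 2 P := fun x hx => ⟨hcen hx, hfp x hx⟩
  obtain ⟨d, ⟨e⟩⟩ := exists_equiv_fin (p := 2) (P ⧸ Wsub 2 P) (by
      intro a b
      obtain ⟨x, rfl⟩ := QuotientGroup.mk_surjective a
      obtain ⟨y, rfl⟩ := QuotientGroup.mk_surjective b
      exact (Helper60.PCP.comm_mem_iff (Wsub 2 P) x y).mp
        (hfW (Helper60.PCP.comm_mem_frattini hP x y))) (by
      intro a
      obtain ⟨x, rfl⟩ := QuotientGroup.mk_surjective a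
      rw [← QuotientGroup.mk_pow, QuotientGroup.eq_one_iff]
      exact hfW (Helper60.PCP.pow_mem_frattini hP x))
  obtain ⟨c, ⟨e'⟩⟩ := exists_equiv_fin (p := 2) (Wsub 2 P) (by
      rintro ⟨a, ha⟩ ⟨b, hb⟩
      apply Subtype.ext
      exact (Subgroup.mem_center_iff.mp hb.1 a)) (by
      rintro ⟨a, ha⟩
      apply Subtype.ext
      exact ha.2)
  let pr : P →* Multiplicative (Fin d → ZMod 2) := e.toMonoidHom.comp (QuotientGroup.mk' _)
  let inc : Multiplicative (Fin c → ZMod 2) →* P :=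
    (Wsub 2 P).subtype.comp e'.symm.toMonoidHom
  have hrange : inc.range = Wsub 2 P := by
    ext x
    constructor
    · rintro ⟨w, rfl⟩
      exact (e'.symm w).2
    · intro hx
      exact ⟨e' ⟨x, hx⟩, by
        show ((e'.symm (e' ⟨x, hx⟩) : Wsub 2 P) : P) = x
        rw [MulEquiv.symm_apply_apply]⟩
  have hker : pr.ker = Wsub 2 P := by
    ext x
    rw [MonoidHom.mem_ker]
    show e (x : P ⧸ Wsub 2 P) = 1 ↔ _
    rw [← QuotientGroup.eq_one_iff]
    exact map_eq_one_iff e e.injective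
  obtain ⟨q, E, hEpr, hEinc⟩ := exists_ext_of_hom (p := 2) pr inc
    (e.surjective.comp (QuotientGroup.mk'_surjective _))
    (fun a b hab => e'.symm.injective (Subtype.ext hab)) (by rw [hker, hrange])
    (by
      intro w x
      have h1 : inc w ∈ Wsub 2 P := by
        rw [← hrange]
        exact ⟨w, rfl⟩
      exact Subgroup.mem_center_iff.mp h1.1 x)
  -- the generator of the Frattini subgroup
  have hcyc : IsCyclic (frattini P) := isCyclic_of_prime_card hF
  obtain ⟨g, hg⟩ := hcyc.exists_generator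
  obtain ⟨w0', hw0'⟩ : ∃ w, inc w = (g : P) := by
    have h1 : (g : P) ∈ inc.range := by
      rw [hrange]
      exact hfW g.2
    exact h1
  let w0 : Fin c → ZMod 2 := w0'.toAdd
  have hfr : ∀ x ∈ frattini P, ∃ t : ZMod 2, x = E.inc (Multiplicative.ofAdd (t • w0)) := by
    intro x hx
    obtain ⟨n, hn⟩ := Subgroup.mem_zpowers_iff.1 (hg ⟨x, hx⟩)
    refine ⟨(n : ZMod 2), ?_⟩
    have h1 : x = (g : P) ^ n := by
      have h2 := congrArg Subtype.val hn
      exact h2.symm
    rw [h1, ← hw0', ← map_zpow, hEinc]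
    congr 1
    apply Multiplicative.toAdd.injective
    rw [toAdd_zpow, toAdd_ofAdd, ← Int.cast_smul_eq_zsmul (ZMod 2)]
  have hw0ne : w0 ≠ 0 := by
    intro h0
    have h1 : (g : P) = 1 := by
      rw [← hw0']
      have h2 : w0' = 1 := Multiplicative.toAdd.injective h0
      rw [h2, map_one]
    have h3 : g = 1 := Subtype.ext h1
    have h4 : ∀ x : frattini P, x = 1 := by
      intro x
      obtain ⟨n, hn⟩ := Subgroup.mem_zpowers_iff.1 (hg x)
      rw [← hn, h3, one_zpow]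
    have h5 : Nat.card (frattini P) = 1 :=
      Nat.card_eq_one_iff_unique.2 ⟨⟨fun a b => by rw [h4 a, h4 b]⟩, ⟨1⟩⟩
    rw [hF] at h5
    exact hp.one_lt.ne' h5
  have hinj : ∀ a b : Fin c → ZMod 2, E.inc (Multiplicative.ofAdd a) =
      E.inc (Multiplicative.ofAdd b) → a = b := by
    intro a b h
    exact Multiplicative.ofAdd.injective (E.inj h)
  have hbe : ∀ v v', ∃ t : ZMod 2, q.be v v' = t • w0 := by
    intro v v'
    obtain ⟨x, hx⟩ := E.surj (Multiplicative.ofAdd v)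
    obtain ⟨y, hy⟩ := E.surj (Multiplicative.ofAdd v')
    have h1 := E.comm x y
    rw [hx, hy, toAdd_ofAdd, toAdd_ofAdd] at h1
    obtain ⟨t, ht⟩ := hfr _ (Helper60.PCP.comm_mem_frattini hP x y)
    exact ⟨t, hinj _ _ (h1.symm.trans ht)⟩
  have hpw : ∀ v, ∃ t : ZMod 2, q.pw v = t • w0 := by
    intro v
    obtain ⟨x, hx⟩ := E.surj (Multiplicative.ofAdd v)
    have h1 := E.pow x
    rw [hx, toAdd_ofAdd] at h1
    obtain ⟨t, ht⟩ := hfr _ (Helper60.PCP.pow_mem_frattini hP x)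
    exact ⟨t, hinj _ _ (h1.symm.trans ht)⟩
  obtain ⟨ell, hell⟩ : ∃ ell : (Fin c → ZMod 2) →ₗ[ZMod 2] ZMod 2, ell w0 = 1 := by
    obtain ⟨i, hi⟩ : ∃ i, w0 i ≠ 0 := by
      by_contra hcon
      apply hw0ne
      funext i
      by_contra h
      exact hcon ⟨i, h⟩
    refine ⟨(w0 i)⁻¹ • LinearMap.proj i, ?_⟩
    show (w0 i)⁻¹ • w0 i = 1
    rw [smul_eq_mul, inv_mul_cancel₀ hi]
  have hellt : ∀ (w : Fin c → ZMod 2), (∃ t : ZMod 2, w = t • w0) → w = ell w • w0 := by
    rintro w ⟨t, rfl⟩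
    rw [map_smul, hell, smul_eq_mul, mul_one]
  refine ⟨d, c, q, q.be.compr₂ ell, fun v => ell (q.pw v), w0, ⟨?_, ?_, hw0ne, ?_, ?_⟩, ?_, ⟨E⟩⟩
  · intro v v'
    rw [LinearMap.compr₂_apply]
    exact hellt _ (hbe v v')
  · intro v
    exact hellt _ (hpw v)
  · intro v
    rw [LinearMap.compr₂_apply, q.alt, map_zero]
  · intro v v'
    show ell (q.pw (v + v')) = ell (q.pw v) + ell (q.pw v') + ell (q.be v v')
    rw [q.pw_add, Nat.choose_self, one_smul, map_add, map_add]
  · intro v h1 h2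
    have h2' : ell (q.pw v) = 0 := h2
    obtain ⟨x, hx⟩ := E.surj (Multiplicative.ofAdd v)
    have hxW : x ∈ Wsub 2 P := by
      refine ⟨?_, ?_⟩
      · rw [Subgroup.mem_center_iff]
        intro y
        have h3 := E.comm x y
        have h4 : q.be (E.pr x).toAdd (E.pr y).toAdd = 0 := by
          rw [hx, toAdd_ofAdd, hellt _ (hbe v _)]
          have h5 := h1 (E.pr y).toAdd
          rw [LinearMap.compr₂_apply] at h5
          rw [h5, zero_smul]
        rw [h4, ofAdd_zero, map_one] at h3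
        have h6 : x * y * x⁻¹ = y := mul_inv_eq_one.mp h3
        exact (mul_inv_eq_iff_eq_mul.mp h6).symm
      · rw [E.pow x, hx, toAdd_ofAdd, hellt _ (hpw v), h2', zero_smul, ofAdd_zero, map_one]
    have h7 : x ∈ E.pr.ker := by
      rw [hEpr, hker]
      exact hxW
    rw [MonoidHom.mem_ker, hx] at h7
    exact h7

end Pool.Agent.XV2
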