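import Pool.Agent.XV2.Defs
import Pool.Agent.XV.Hyp

/-!
# XV2, row S2: hyperbolic bases
-/

set_option autoImplicit false

open Module

namespace Pool.Agent.XV2

open Pool.Agent.APG Pool.Agent.XV

/-- ROW S2 (file XV2/S2.lean): hyperbolic bases -/
theorem exists_hyp {D : Type} [AddCommGroup D] [Module (ZMod 2) D]
    {dot : D →ₗ[ZMod 2] D →ₗ[ZMod 2] ZMod 2} {V : Type} [AddCommGroup V] [Module (ZMod 2) V]
    [Finite V] [Finite D]
    {om : V →ₗ[ZMod 2] V →ₗ[ZMod 2] ZMod 2} {Q : V → ZMod 2} (halt : ∀ v, om v v = 0)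
    (hadd : ∀ v v', Q (v + v') = Q v + Q v' + om v v') (hnd : Nd om)
    {A : Submodule (ZMod 2) V} (hA : TS Q A) (hdA : finrank (ZMod 2) V = 2 * finrank (ZMod 2) A)
    (hdot : ∀ a, (∀ b, dot a b = 0) → a = 0) (hD : finrank (ZMod 2) D = finrank (ZMod 2) A) :
    ∃ e : V ≃ₗ[ZMod 2] D × D, (∀ v, Q v = dot (e v).1 (e v).2) ∧
      ∀ v v', om v v' = dot (e v).1 (e v').2 + dot (e v').1 (e v).2 := by
  have hVf : FiniteDimensional (ZMod 2) V := Module.Finite.of_finite
  have hDf : FiniteDimensional (ZMod 2) D := Module.Finite.of_finite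
  obtain ⟨e, he⟩ := XV.exists_hyp dot hdot om halt hnd Q hadd A hA (by rw [hD, hdA]) hD.symm
  refine ⟨e, he, fun v v' => ?_⟩
  have h := hadd v v'
  rw [he, he, he, map_add, Prod.fst_add, Prod.snd_add, map_add, map_add, LinearMap.add_apply,
    LinearMap.add_apply] at h
  linear_combination -h

end Pool.Agent.XV2
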