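import Pool.Agent.XV.U12
import Pool.Agent.XV.U34
import Pool.Agent.XV.Sym
import Pool.Agent.XV2.Defs

/-!
# Upper bounds for the 2-groups with Frattini subgroup of order two
-/

set_option autoImplicit false

open Module

namespace Pool.Agent.XV2

open Pool.Agent.APG Pool.Agent.XV Pool.Agent.Helper19.PCP

/-- an alternating nondegenerate form exists only in even dimension -/
theorem even_finrank {p : ℕ} [Fact p.Prime] : ∀ n : ℕ, ∀ (V : Type) [AddCommGroup V]
    [Module (ZMod p) V] [Finite V] (om : V →ₗ[ZMod p] V →ₗ[ZMod p] ZMod p), (∀ v, om v v = 0) →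
      Nd om → finrank (ZMod p) V = n → Even n := by
  intro n
  induction n using Nat.strong_induction_on with
  | _ n ih =>
    intro V _ _ _ om halt hnd h
    rcases Nat.eq_zero_or_pos n with hn | hn
    · rw [hn]
      exact Even.zero
    · have hV : Nontrivial V := nontrivial_of_finrank_pos (R := ZMod p) (by omega)
      obtain ⟨x, hx⟩ := exists_ne (0 : V)
      obtain ⟨y, hxy⟩ := exists_pair hnd hx
      have h1 := finrank_orth halt hxy
      have nd : Nd (om.domRestrict₁₂ (orth om x y) (orth om x y)) := by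
        intro v hv
        apply Subtype.ext
        apply hnd
        intro w
        have h2 := hv (prj om halt hxy w)
        rw [LinearMap.domRestrict₁₂_apply, coe_prj, map_sub, map_sub, map_smul, map_smul,
          (mem_orth.1 v.2).1, (mem_orth.1 v.2).2, smul_zero, smul_zero, sub_zero,
          sub_zero] at h2
        exact h2
      have h2 := ih (n - 2) (by omega) (orth om x y)
        (om.domRestrict₁₂ (orth om x y) (orth om x y)) (fun v => halt v) nd (by omega)
      obtain ⟨k, hk⟩ := h2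
      exact ⟨k + 1, by omega⟩

section gen

variable {p : ℕ} [Fact p.Prime] {V W : Type} [AddCommGroup V] [AddCommGroup W]
  [Module (ZMod p) V] [Module (ZMod p) W] [Finite V] [Finite W] {q : Dat p V W} {P : Type}
  [Group P]

/-- the trace of a member which is not axis has dimension at least `dim W` -/
lemma le_trU' (E : Ext q P) {om : V →ₗ[ZMod p] V →ₗ[ZMod p] ZMod p} {w0 : W}
    (hbe : ∀ v v', q.be v v' = om v v' • w0) (hnd : Nd om) {𝒰 : Finset (Subgroup (P × P))}
    (hU : IsPCP (Nat.card P) 𝒰) {U : Subgroup (P × P)} (h1 : U ∈ 𝒰)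
    (ha : ((w0, 0) : W × W) ∉ trU E U) (hb : ((0, w0) : W × W) ∉ trU E U) :
    finrank (ZMod p) W ≤ finrank (ZMod p) (trU E U) := by
  obtain ⟨l1, l2, hl1, hl2, hl⟩ := exists_lam (trU E U) w0 ha hb
  have h3 := (iso_le hnd hl1 hl2 (imU E U) (fun x hx y hy => by
    have h4 := be_mem E U hx hy
    rw [hbe, hbe] at h4
    exact hl _ _ h4)).1
  have h4 := dim_add E hU h1
  omega

/-- the bounds of U1, for any prime -/
theorem upper_gen (E : Ext q P) {om : V →ₗ[ZMod p] V →ₗ[ZMod p] ZMod p} {w0 : W} (hw0 : w0 ≠ 0)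
    (hbe : ∀ v v', q.be v v' = om v v' • w0) (hnd : Nd om) :
    T (P × P) ≤ p ^ finrank (ZMod p) W + 2 ∧
      (finrank (ZMod p) W = 1 → T (P × P) ≤ p + 1) := by
  classical
  have hp : p.Prime := Fact.out
  have hp1 : 1 < p := hp.one_lt
  have hfW : Fintype (W × W) := Fintype.ofFinite _
  have hWf : Module.Finite (ZMod p) W := Module.Finite.of_finite
  have hc1 : 1 ≤ finrank (ZMod p) W := by
    have : Nontrivial W := ⟨w0, 0, hw0⟩
    exact Module.finrank_pos
  have hcardW : Fintype.card (W × W) = p ^ finrank (ZMod p) W * p ^ finrank (ZMod p) W := by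
    rw [← Nat.card_eq_fintype_card, Nat.card_prod, card_space p W]
  refine ⟨T_le_of_nonaxis E hw0 ?_, fun hc => ?_⟩
  · intro 𝒰 hU hax
    have h1 := card_mul_le_set 𝒰 (fun U => trU E U)
      (fun U hU1 U' hU2 hne => trU_inf E hU hU1 hU2 hne) (p ^ finrank (ZMod p) W)
      (fun U hU1 => by
        rw [card_sub]
        exact Nat.pow_le_pow_right (by omega) (le_trU' E hbe hnd hU hU1 (hax U hU1).1
          (hax U hU1).2)) ((Finset.univ.erase 0).erase ((w0, 0) : W × W)) (by
        intro U hU1 y hy hy0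
        rw [Finset.mem_erase, Finset.mem_erase]
        refine ⟨?_, hy0, Finset.mem_univ _⟩
        rintro rfl
        exact (hax U hU1).1 hy)
    have hne : ((w0, 0) : W × W) ∈ (Finset.univ.erase 0 : Finset (W × W)) := by
      rw [Finset.mem_erase]
      exact ⟨fun h0 => hw0 (congrArg Prod.fst h0), Finset.mem_univ _⟩
    rw [Finset.card_erase_of_mem hne, Finset.card_erase_of_mem (Finset.mem_univ _),
      Finset.card_univ, hcardW, Nat.sub_sub] at h1
    have h2 : 2 ≤ p ^ finrank (ZMod p) W := by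
      calc 2 ≤ p ^ 1 := by rw [pow_one]; omega
        _ ≤ _ := Nat.pow_le_pow_right (by omega) hc1
    exact le_of_mul_le' h2 h1
  · have hpp : p + 1 = (p - 1) + 2 := by omega
    rw [hpp]
    refine T_le_of_nonaxis E hw0 ?_
    intro 𝒰 hU hax
    have hfW1 : Fintype W := Fintype.ofFinite _
    have hspan : ∀ w : W, w ≠ 0 → ∃ a : ZMod p, a • w = w0 := fun w hw =>
      exists_smul_eq_of_finrank_eq_one hc hw w0
    have h1 := card_mul_le_set 𝒰 (fun U => trU E U)
      (fun U hU1 U' hU2 hne => trU_inf E hU hU1 hU2 hne) (p ^ finrank (ZMod p) W)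
      (fun U hU1 => by
        rw [card_sub]
        exact Nat.pow_le_pow_right (by omega) (le_trU' E hbe hnd hU hU1 (hax U hU1).1
          (hax U hU1).2)) ((Finset.univ.erase (0 : W)) ×ˢ (Finset.univ.erase (0 : W))) (by
        rintro U hU1 ⟨y1, y2⟩ hy hy0
        rw [Finset.mem_product, Finset.mem_erase, Finset.mem_erase]
        refine ⟨⟨?_, Finset.mem_univ _⟩, ?_, Finset.mem_univ _⟩
        · rintro (rfl : y1 = 0)
          have h3 : y2 ≠ 0 := by
            rintro rfl
            exact hy0 rfl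
          obtain ⟨a, ha⟩ := hspan y2 h3
          have h4 := (trU E U).smul_mem a hy
          rw [Prod.smul_mk, smul_zero, ha] at h4
          exact (hax U hU1).2 h4
        · rintro (rfl : y2 = 0)
          have h3 : y1 ≠ 0 := by
            rintro rfl
            exact hy0 rfl
          obtain ⟨a, ha⟩ := hspan y1 h3
          have h4 := (trU E U).smul_mem a hy
          rw [Prod.smul_mk, smul_zero, ha] at h4
          exact (hax U hU1).1 h4)
    rw [Finset.card_product, Finset.card_erase_of_mem (Finset.mem_univ _), Finset.card_univ,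
      ← Nat.card_eq_fintype_card, card_space p W, hc, pow_one] at h1
    exact Nat.le_of_mul_le_mul_right h1 (by omega)

end gen

section two

variable {V W : Type} [AddCommGroup V] [AddCommGroup W] [Module (ZMod 2) V] [Module (ZMod 2) W]

lemma eq_one_of_ne {x : ZMod 2} (hx : x ≠ 0) : x = 1 := by
  revert x
  decide

lemma eq_of_add {x y : ZMod 2} (h : x + y = 0) : x = y := by
  revert x y
  decide

/-- the intersection of two complementary subspaces -/
lemma inf_of_sup [Finite V] {m : ℕ} (hm : finrank (ZMod 2) V = 2 * m) {A B : Submodule (ZMod 2) V}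
    (hA : finrank (ZMod 2) A ≤ m) (hB : finrank (ZMod 2) B ≤ m) (h : A ⊔ B = ⊤) : A ⊓ B = ⊥ := by
  have hfin : Module.Finite (ZMod 2) V := Module.Finite.of_finite
  have h4 := Submodule.finrank_sup_add_finrank_inf_eq A B
  rw [h, finrank_top] at h4
  exact Submodule.finrank_eq_zero.1 (by omega)

lemma iso_of_sing {om : V →ₗ[ZMod 2] V →ₗ[ZMod 2] ZMod 2} {Q : V → ZMod 2}
    (pol : ∀ v v', Q (v + v') = Q v + Q v' + om v v') {A : Submodule (ZMod 2) V}
    (hQ : ∀ x ∈ A, Q x = 0) : ∀ x ∈ A, ∀ y ∈ A, om x y = 0 := by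
  intro x hx y hy
  have h := pol x y
  rw [hQ x hx, hQ y hy, hQ _ (A.add_mem hx hy), zero_add, zero_add] at h
  exact h.symm

/-- three totally singular subspaces of half the dimension, any two of them complementary -/
lemma even_of_three [Finite V] {om : V →ₗ[ZMod 2] V →ₗ[ZMod 2] ZMod 2} {Q : V → ZMod 2}
    (pol : ∀ v v', Q (v + v') = Q v + Q v' + om v v') (hnd : Nd om) {m : ℕ}
    {A B C : Submodule (ZMod 2) V} (hA : ∀ x ∈ A, Q x = 0) (hB : ∀ x ∈ B, Q x = 0)
    (hC : ∀ x ∈ C, Q x = 0) (hAB : A ⊔ B = ⊤) (hAC : A ⊔ C = ⊤) (hBC : IsCompl B C)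
    (hd : finrank (ZMod 2) A = m) : Even m := by
  set π := Submodule.projectionOnto B C hBC with hπ
  have hπB : ∀ b : B, π b = b := Submodule.projectionOnto_apply_left hBC
  have hπC : ∀ c ∈ C, π c = 0 := fun c hc =>
    (Submodule.projectionOnto_apply_eq_zero_iff hBC).2 hc
  have hsub : ∀ v : V, v + π v ∈ C := by
    intro v
    rw [← Submodule.projectionOnto_apply_eq_zero_iff hBC, ← hπ, map_add, hπB]
    exact ZModModule.add_self _
  let om' : A →ₗ[ZMod 2] A →ₗ[ZMod 2] ZMod 2 :=
    om.compl₁₂ A.subtype (B.subtype ∘ₗ π ∘ₗ A.subtype)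
  have hom' : ∀ a a' : A, om' a a' = om a (π a' : V) := fun a a' => rfl
  refine even_finrank m A om' ?_ ?_ hd
  · intro a
    rw [hom']
    have h := pol a (π a : V)
    rw [hA a a.2, hB _ (π (a : V)).2, hC _ (hsub a), zero_add, zero_add] at h
    exact h.symm
  · intro a ha
    apply Subtype.ext
    apply hnd
    intro v
    have hv : v ∈ A ⊔ B := by
      rw [hAB]
      trivial
    obtain ⟨x, hx, y, hy, rfl⟩ := Submodule.mem_sup.1 hv
    rw [map_add, iso_of_sing pol hA a a.2 x hx, zero_add]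
    have hy' : y ∈ A ⊔ C := by
      rw [hAC]
      trivial
    obtain ⟨a', ha', c, hc, hac⟩ := Submodule.mem_sup.1 hy'
    have h1 : (π a' : V) = y := by
      have h3 : π y = π a' := by
        rw [← hac, map_add, hπC c hc, add_zero]
      rw [← h3]
      exact congrArg Subtype.val (hπB ⟨y, hy⟩)
    have h2 := ha ⟨a', ha'⟩
    rw [hom'] at h2
    rwa [h1] at h2

/-- totally singular subspaces, any two of them complementary -/
lemma sing_family [Finite V] {om : V →ₗ[ZMod 2] V →ₗ[ZMod 2] ZMod 2} {Q : V → ZMod 2}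
    (pol : ∀ v v', Q (v + v') = Q v + Q v' + om v v') (hnd : Nd om) {m : ℕ}
    (hm : finrank (ZMod 2) V = 2 * m) (hm1 : 1 ≤ m) {ι : Type} (K : Finset ι)
    (A : ι → Submodule (ZMod 2) V) (hQ : ∀ i ∈ K, ∀ x ∈ A i, Q x = 0)
    (hsup : ∀ i ∈ K, ∀ j ∈ K, i ≠ j → A i ⊔ A j = ⊤) :
    K.card ≤ 2 ^ (m - 1) + 1 ∧ (¬ Even m → K.card ≤ 2) := by
  classical
  have hfin : Module.Finite (ZMod 2) V := Module.Finite.of_finite
  have hfV : Fintype V := Fintype.ofFinite _
  have h1m : 1 ≤ 2 ^ (m - 1) := Nat.one_le_pow _ _ (by norm_num)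
  rcases Nat.lt_or_ge K.card 3 with h3 | h3
  · exact ⟨by omega, fun _ => by omega⟩
  have hle : ∀ i ∈ K, finrank (ZMod 2) (A i) ≤ m := by
    intro i hi
    have h1 := iso_le_half hnd (A i) (iso_of_sing pol (hQ i hi))
    omega
  have hge : ∀ i ∈ K, m ≤ finrank (ZMod 2) (A i) := by
    intro i hi
    obtain ⟨j, hj, hne⟩ := Finset.exists_mem_ne (show 1 < K.card by omega) i
    have h4 := finrank_sup_le _ _ (hsup i hi j hj hne.symm)
    have h5 := hle j hj
    omega
  have hinf : ∀ i ∈ K, ∀ j ∈ K, i ≠ j → A i ⊓ A j = ⊥ := fun i hi j hj hne =>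
    inf_of_sup hm (hle i hi) (hle j hj) (hsup i hi j hj hne)
  obtain ⟨i1, hi1, i2, hi2, h12⟩ := Finset.one_lt_card.1 (show 1 < K.card by omega)
  have hcard : ((K.erase i1).erase i2).card + 2 = K.card := by
    rw [Finset.card_erase_of_mem (Finset.mem_erase.2 ⟨h12.symm, hi2⟩),
      Finset.card_erase_of_mem hi1]
    omega
  have hK' : ∀ i ∈ (K.erase i1).erase i2, i ∈ K ∧ i ≠ i1 ∧ i ≠ i2 := by
    intro i hi
    rw [Finset.mem_erase, Finset.mem_erase] at hi
    exact ⟨hi.2.2, hi.2.1, hi.1⟩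
  refine ⟨?_, fun hodd => ?_⟩
  · -- a vector of the first subspace
    have hA1 : A i1 ≠ ⊥ := by
      intro h
      have h4 := hge i1 hi1
      rw [h, finrank_bot] at h4
      omega
    obtain ⟨a, ha, ha0⟩ := Submodule.exists_mem_ne_zero_of_ne_bot hA1
    have hb : ∀ i ∈ (K.erase i1).erase i2, ∃ b : V, b ∈ A i2 ∧ a + b ∈ A i := by
      intro i hi
      obtain ⟨hiK, hii1, hii2⟩ := hK' i hi
      have h4 : a ∈ A i ⊔ A i2 := by
        rw [hsup i hiK i2 hi2 hii2]
        trivial
      obtain ⟨x, hx, y, hy, hxy⟩ := Submodule.mem_sup.1 h4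
      refine ⟨y, hy, ?_⟩
      rw [← hxy, add_assoc, ZModModule.add_self, add_zero]
      exact hx
    choose! b hb1 hb2 using hb
    have hB : (A i2 ⊓ LinearMap.ker (om a) : Submodule (ZMod 2) V) < A i2 := by
      refine lt_of_le_of_ne inf_le_left ?_
      intro heq
      apply ha0
      apply hnd
      intro v
      have hv : v ∈ A i1 ⊔ A i2 := by
        rw [hsup i1 hi1 i2 hi2 h12]
        trivial
      obtain ⟨x, hx, y, hy, rfl⟩ := Submodule.mem_sup.1 hv
      rw [← heq] at hy
      have h5 : om a y = 0 := hy.2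
      rw [map_add, iso_of_sing pol (hQ i1 hi1) a ha x hx, h5, add_zero]
    have h4 := Submodule.finrank_lt_finrank_of_lt hB
    have h5 := hle i2 hi2
    have h6 : ((K.erase i1).erase i2).card ≤
        ((Finset.univ.filter fun v => v ∈ (A i2 ⊓ LinearMap.ker (om a) :
          Submodule (ZMod 2) V)).erase 0).card := by
      apply Finset.card_le_card_of_injOn b
      · intro i hi
        obtain ⟨hiK, hii1, hii2⟩ := hK' i hi
        rw [Finset.mem_coe, Finset.mem_erase, Finset.mem_filter]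
        refine ⟨?_, Finset.mem_univ _, hb1 i hi, ?_⟩
        · intro h0
          have h7 := hb2 i hi
          rw [h0, add_zero] at h7
          have h8 : a ∈ A i ⊓ A i1 := ⟨h7, ha⟩
          rw [hinf i hiK i1 hi1 hii1, Submodule.mem_bot] at h8
          exact ha0 h8
        · have h7 := pol a (b i)
          rw [hQ i1 hi1 a ha, hQ i2 hi2 _ (hb1 i hi), hQ i hiK _ (hb2 i hi), zero_add,
            zero_add] at h7
          exact h7.symm
      · intro i hi j hj hij
        by_contra hne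
        obtain ⟨hiK, hii1, hii2⟩ := hK' i hi
        obtain ⟨hjK, hji1, hji2⟩ := hK' j hj
        have h7 : a + b i ∈ A i ⊓ A j := by
          refine ⟨hb2 i hi, ?_⟩
          have hij' : b i = b j := hij
          rw [hij']
          exact hb2 j hj
        rw [hinf i hiK j hjK hne, Submodule.mem_bot] at h7
        have h8 : a ∈ A i1 ⊓ A i2 := by
          refine ⟨ha, ?_⟩
          have h9 : a = b i := by
            rw [← sub_eq_zero, ZModModule.sub_eq_add]
            exact h7
          rw [h9]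
          exact hb1 i hi
        rw [hinf i1 hi1 i2 hi2 h12, Submodule.mem_bot] at h8
        exact ha0 h8
    have h7 : (Finset.univ.filter fun v => v ∈ (A i2 ⊓ LinearMap.ker (om a) :
        Submodule (ZMod 2) V)).card =
          2 ^ finrank (ZMod 2) (A i2 ⊓ LinearMap.ker (om a) : Submodule (ZMod 2) V) := by
      rw [← card_sub, Nat.card_eq_fintype_card, Fintype.card_subtype]
    have h9 : (0 : V) ∈ (Finset.univ.filter fun v => v ∈ (A i2 ⊓ LinearMap.ker (om a) :
        Submodule (ZMod 2) V)) :=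
      Finset.mem_filter.2 ⟨Finset.mem_univ _, Submodule.zero_mem _⟩
    rw [Finset.card_erase_of_mem h9, h7] at h6
    have h8 : 2 ^ finrank (ZMod 2) (A i2 ⊓ LinearMap.ker (om a) : Submodule (ZMod 2) V) ≤
        2 ^ (m - 1) := Nat.pow_le_pow_right (by norm_num) (by omega)
    omega
  · exfalso
    apply hodd
    obtain ⟨i3, hi3⟩ := Finset.card_pos.1 (show 0 < ((K.erase i1).erase i2).card by omega)
    obtain ⟨hi3K, h31, h32⟩ := hK' i3 hi3
    have h4 := hle i1 hi1
    have h5 := hge i1 hi1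
    exact even_of_three pol hnd (hQ i1 hi1) (hQ i2 hi2) (hQ i3 hi3K) (hsup i1 hi1 i2 hi2 h12)
      (hsup i1 hi1 i3 hi3K h31.symm) ⟨disjoint_iff.2 (hinf i2 hi2 i3 hi3K h32.symm),
        codisjoint_iff.2 (hsup i2 hi2 i3 hi3K h32.symm)⟩ (le_antisymm h4 h5)

/-- the dimension of a subspace of `V × V` and of its projections -/
lemma finrank_le_proj [Finite V] (X : Submodule (ZMod 2) (V × V)) :
    finrank (ZMod 2) X ≤ finrank (ZMod 2) (X.map (LinearMap.fst (ZMod 2) V V)) +
      finrank (ZMod 2) (X.map (LinearMap.snd (ZMod 2) V V)) := by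
  have hfin : Module.Finite (ZMod 2) V := Module.Finite.of_finite
  let g : X →ₗ[ZMod 2] X.map (LinearMap.fst (ZMod 2) V V) × X.map (LinearMap.snd (ZMod 2) V V) :=
    LinearMap.prod
    (((LinearMap.fst (ZMod 2) V V).comp X.subtype).codRestrict _ (fun x => ⟨x.1, x.2, rfl⟩))
    (((LinearMap.snd (ZMod 2) V V).comp X.subtype).codRestrict _ (fun x => ⟨x.1, x.2, rfl⟩))
  have hg : Function.Injective g := by
    intro x y hxy
    apply Subtype.ext
    apply Prod.ext
    · exact congrArg (fun z : X.map (LinearMap.fst (ZMod 2) V V) ×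
        X.map (LinearMap.snd (ZMod 2) V V) => (z.1 : V)) hxy
    · exact congrArg (fun z : X.map (LinearMap.fst (ZMod 2) V V) ×
        X.map (LinearMap.snd (ZMod 2) V V) => (z.2 : V)) hxy
  have e3 := LinearMap.finrank_le_finrank_of_injective hg
  rwa [finrank_prod] at e3

section mem2
variable [Finite V] [Finite W] {q : Dat 2 V W} {P : Type} [Group P]
  {om : V →ₗ[ZMod 2] V →ₗ[ZMod 2] ZMod 2} {Q : V → ZMod 2} {w0 : W}

/-- the forms on the image of a member which is not axis -/
lemma two_nonaxis (E : Ext q P) (h : Two q om Q w0) {U : Subgroup (P × P)}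
    (ha : ((w0, 0) : W × W) ∉ trU E U) (hb : ((0, w0) : W × W) ∉ trU E U) :
    (∀ a b : ZMod 2, ((a • w0, b • w0) : W × W) ∈ trU E U → a + b = 0) ∧
    (∀ x ∈ imU E U, ∀ y ∈ imU E U, om x.1 y.1 + om x.2 y.2 = 0) ∧
      ∀ x ∈ imU E U, Q x.1 + Q x.2 = 0 := by
  obtain ⟨l1, l2, hl1, hl2, hl⟩ := exists_lam (trU E U) w0 ha hb
  rw [eq_one_of_ne hl1, eq_one_of_ne hl2] at hl
  have hl' : ∀ a b : ZMod 2, ((a • w0, b • w0) : W × W) ∈ trU E U → a + b = 0 := by
    intro a b hab
    have h1 := hl a b hab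
    rwa [one_mul, one_mul] at h1
  refine ⟨hl', fun x hx y hy => ?_, fun x hx => ?_⟩
  · apply hl'
    have h1 := be_mem E U hx hy
    rwa [h.be, h.be] at h1
  · apply hl'
    have h1 := pw_mem E U hx
    rwa [h.pw, h.pw] at h1

/-- the forms on the image of a member whose trace does not meet the plane of `w0` -/
lemma two_inner (E : Ext q P) (h : Two q om Q w0) {U : Subgroup (P × P)}
    (hY : ∀ a b : ZMod 2, ((a • w0, b • w0) : W × W) ∈ trU E U → a = 0 ∧ b = 0) :
    ∀ x ∈ imU E U, Q x.1 = 0 ∧ Q x.2 = 0 := by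
  intro x hx
  have h1 := pw_mem E U hx
  rw [h.pw, h.pw] at h1
  exact hY _ _ h1

/-- a member which is not axis contains `(w0, w0)` or its trace does not meet the plane of `w0` -/
lemma two_cases (E : Ext q P) (h : Two q om Q w0) {U : Subgroup (P × P)}
    (ha : ((w0, 0) : W × W) ∉ trU E U) (hb : ((0, w0) : W × W) ∉ trU E U) :
    ((w0, w0) : W × W) ∈ trU E U ∨
      ∀ a b : ZMod 2, ((a • w0, b • w0) : W × W) ∈ trU E U → a = 0 ∧ b = 0 := by
  by_cases hd : ((w0, w0) : W × W) ∈ trU E U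
  · exact Or.inl hd
  · right
    intro a b hab
    have h1 := (two_nonaxis E h ha hb).1 a b hab
    have h2 := eq_of_add h1
    subst h2
    by_contra hne
    have h3 : a ≠ 0 := fun h0 => hne ⟨h0, h0⟩
    rw [eq_one_of_ne h3, one_smul] at hab
    exact hd hab

end mem2

/-- the form on the radical is additive -/
lemma iso_le_radQ [Finite V] {om : V →ₗ[ZMod 2] V →ₗ[ZMod 2] ZMod 2} {Q : V → ZMod 2}
    (pol : ∀ v v', Q (v + v') = Q v + Q v' + om v v')
    (hrad : ∀ v, (∀ v', om v v' = 0) → Q v = 0 → v = 0) (X : Submodule (ZMod 2) (V × V))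
    (hX : ∀ x ∈ X, ∀ y ∈ X, om x.1 y.1 + om x.2 y.2 = 0)
    (hX2 : ∀ x ∈ X, Q x.1 + Q x.2 = 0) : finrank (ZMod 2) X ≤ finrank (ZMod 2) V := by
  have hfin : Module.Finite (ZMod 2) V := Module.Finite.of_finite
  have h3 := LinearMap.BilinForm.finrank_add_finrank_orthogonal' (B := bform om 1 1) X
  rw [finrank_prod] at h3
  have h4 : X ≤ (bform om 1 1).orthogonal X := by
    intro x hx y hy
    show bform om 1 1 y x = 0
    rw [bform_apply, one_mul, one_mul]
    exact hX y hy x hx
  have h5 := Submodule.finrank_mono h4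
  have hrad' : ∀ x ∈ (X ⊓ (bform om 1 1).ker : Submodule (ZMod 2) (V × V)),
      (∀ v, om x.1 v = 0) ∧ ∀ v, om x.2 v = 0 := by
    rintro x ⟨_, hx'⟩
    have hx'' : bform om 1 1 x = 0 := hx'
    have h8 : ∀ y : V × V, om x.1 y.1 + om x.2 y.2 = 0 := fun y => by
      have h9 : bform om 1 1 x y = 0 := by
        rw [hx'']
        rfl
      rwa [bform_apply, one_mul, one_mul] at h9
    refine ⟨fun v => ?_, fun v => ?_⟩
    · have h9 := h8 (v, 0)
      rwa [map_zero, add_zero] at h9
    · have h9 := h8 (0, v)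
      rwa [map_zero, zero_add] at h9
  have hQ0 : Q 0 = 0 := by
    have h6 := pol 0 0
    rw [add_zero, map_zero, add_zero] at h6
    exact (left_eq_add.1 h6)
  -- the intersection with the radical embeds into the field
  have h6 : finrank (ZMod 2) (X ⊓ (bform om 1 1).ker : Submodule (ZMod 2) (V × V)) ≤ 1 := by
    let g0 : (X ⊓ (bform om 1 1).ker : Submodule (ZMod 2) (V × V)) →+ ZMod 2 :=
      { toFun := fun x => Q (x : V × V).1
        map_zero' := hQ0
        map_add' := fun x y => by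
          show Q ((x : V × V).1 + (y : V × V).1) = _
          rw [pol, (hrad' _ x.2).1, add_zero] }
    let g := g0.toZModLinearMap 2
    have hg : Function.Injective g := by
      rw [injective_iff_map_eq_zero]
      rintro x hgx
      have hFx : Q (x : V × V).1 = 0 := hgx
      have hFx2 : Q (x : V × V).2 = 0 := by
        have h7 := hX2 x x.2.1
        rwa [hFx, zero_add] at h7
      apply Subtype.ext
      show (x : V × V) = 0
      apply Prod.ext
      · exact hrad _ (hrad' _ x.2).1 hFx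
      · exact hrad _ (hrad' _ x.2).2 hFx2
    have h10 := LinearMap.finrank_le_finrank_of_injective hg
    rwa [finrank_self] at h10
  omega

/-- a totally singular subspace when there is a vector in the radical which is not singular -/
lemma sing_half [Finite V] {om : V →ₗ[ZMod 2] V →ₗ[ZMod 2] ZMod 2} {Q : V → ZMod 2}
    (halt : ∀ v, om v v = 0) (pol : ∀ v v', Q (v + v') = Q v + Q v' + om v v')
    (hrad : ∀ v, (∀ v', om v v' = 0) → Q v = 0 → v = 0) {r : V} (hr : ∀ v', om r v' = 0)
    (hQr : Q r ≠ 0) (X : Submodule (ZMod 2) V) (hX2 : ∀ x ∈ X, Q x = 0) :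
    2 * finrank (ZMod 2) X + 1 ≤ finrank (ZMod 2) V := by
  have hfin : Module.Finite (ZMod 2) V := Module.Finite.of_finite
  have hX := iso_of_sing pol hX2
  have h3 := LinearMap.BilinForm.finrank_add_finrank_orthogonal' (B := om) X
  have h4 : X ≤ LinearMap.BilinForm.orthogonal om X := by
    intro x hx y hy
    exact hX y hy x hx
  have h6 : (X ⊓ om.ker : Submodule (ZMod 2) V) = ⊥ := by
    rw [eq_bot_iff]
    rintro x ⟨hx, hx'⟩
    rw [Submodule.mem_bot]
    refine hrad x (fun v' => ?_) (hX2 x hx)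
    have hx'' : om x = 0 := hx'
    rw [hx'']
    rfl
  rw [h6, finrank_bot, add_zero] at h3
  have h7 : X < LinearMap.BilinForm.orthogonal om X := by
    refine lt_of_le_of_ne h4 ?_
    intro heq
    have hrX : r ∈ LinearMap.BilinForm.orthogonal om X := by
      intro y hy
      show om y r = 0
      rw [om_swap halt r y, hr, neg_zero]
    rw [← heq] at hrX
    exact hQr (hX2 r hrX)
  have h8 := Submodule.finrank_lt_finrank_of_lt h7
  omega

section mem3
variable [Finite V] [Finite W] {q : Dat 2 V W} {P : Type} [Group P]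
  {om : V →ₗ[ZMod 2] V →ₗ[ZMod 2] ZMod 2} {Q : V → ZMod 2} {w0 : W}

/-- ROW U5 -/
theorem upper_U5 (E : Ext q P) (h : Two q om Q w0)
    (hrad : ∀ v, (∀ v', om v v' = 0) → Q v = 0 → v = 0) {r : V} (hr : ∀ v', om r v' = 0)
    (hQr : Q r ≠ 0) : T (P × P) ≤ 3 := by
  have hfin : Module.Finite (ZMod 2) V := Module.Finite.of_finite
  refine T_le_of_nonaxis E h.w0 (n := 1) ?_
  intro 𝒰 hU hna
  rw [Finset.card_le_one]
  intro U hU1 U' hU2
  by_contra hne
  have key : ∀ U ∈ 𝒰, finrank (ZMod 2) (imU E U) ≤ finrank (ZMod 2) V ∧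
      (((w0, w0) : W × W) ∉ trU E U → finrank (ZMod 2) (imU E U) < finrank (ZMod 2) V) := by
    intro U hU1
    obtain ⟨-, f1, f2⟩ := two_nonaxis E h (hna U hU1).1 (hna U hU1).2
    refine ⟨iso_le_radQ h.add hrad _ f1 f2, fun hd => ?_⟩
    have h1 := two_inner E h ((two_cases E h (hna U hU1).1 (hna U hU1).2).resolve_left hd)
    have e1 := sing_half h.alt h.add hrad hr hQr ((imU E U).map (LinearMap.fst (ZMod 2) V V)) (by
      rintro _ ⟨x, hx, rfl⟩
      exact (h1 x hx).1)
    have e2 := sing_half h.alt h.add hrad hr hQr ((imU E U).map (LinearMap.snd (ZMod 2) V V)) (by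
      rintro _ ⟨x, hx, rfl⟩
      exact (h1 x hx).2)
    have e3 := finrank_le_proj (imU E U)
    omega
  have h1 := finrank_sup_le _ _ (imU_sup E hU hU1 hU2 hne)
  rw [finrank_prod] at h1
  have k1 := key U hU1
  have k2 := key U' hU2
  have d1 : ((w0, w0) : W × W) ∈ trU E U := by
    by_contra hd
    have := k1.2 hd
    omega
  have d2 : ((w0, w0) : W × W) ∈ trU E U' := by
    by_contra hd
    have := k2.2 hd
    omega
  exact hne (eq_of_mem_trU E hU hU1 hU2 (fun h0 => h.w0 (congrArg Prod.fst h0)) d1 d2)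

/-- no totally singular subspace of half the dimension -/
theorem upper_minus (E : Ext q P) (h : Two q om Q w0) (hnd : Nd om) {m : ℕ}
    (hm : finrank (ZMod 2) V = 2 * m)
    (hno : ∀ A : Submodule (ZMod 2) V, TS Q A → finrank (ZMod 2) A < m) :
    T (P × P) ≤ 3 := by
  have hfin : Module.Finite (ZMod 2) V := Module.Finite.of_finite
  have hfinW : Module.Finite (ZMod 2) W := Module.Finite.of_finite
  refine T_le_of_nonaxis E h.w0 (n := 1) ?_
  intro 𝒰 hU hna
  rw [Finset.card_le_one]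
  intro U hU1 U' hU2
  by_contra hne
  have key : ∀ U ∈ 𝒰, ((w0, w0) : W × W) ∉ trU E U →
      finrank (ZMod 2) W + 1 ≤ finrank (ZMod 2) (trU E U) := by
    intro U hU1 hd
    have h1 := two_inner E h ((two_cases E h (hna U hU1).1 (hna U hU1).2).resolve_left hd)
    have e1 := hno ((imU E U).map (LinearMap.fst (ZMod 2) V V)) (by
      rintro _ ⟨x, hx, rfl⟩
      exact (h1 x hx).1)
    have e2 := hno ((imU E U).map (LinearMap.snd (ZMod 2) V V)) (by
      rintro _ ⟨x, hx, rfl⟩
      exact (h1 x hx).2)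
    have e3 := finrank_le_proj (imU E U)
    have e4 := dim_add E hU hU1
    omega
  have hY : ∀ U ∈ 𝒰, finrank (ZMod 2) W ≤ finrank (ZMod 2) (trU E U) := fun U hU1 =>
    le_trU' E h.be hnd hU hU1 (hna U hU1).1 (hna U hU1).2
  have h1 := Submodule.finrank_sup_add_finrank_inf_eq (trU E U) (trU E U')
  rw [trU_inf E hU hU1 hU2 hne, finrank_bot] at h1
  have h2 := Submodule.finrank_le (trU E U ⊔ trU E U')
  rw [finrank_prod] at h2
  have y1 := hY U hU1
  have y2 := hY U' hU2
  have d1 : ((w0, w0) : W × W) ∈ trU E U := by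
    by_contra hd
    have := key U hU1 hd
    omega
  have d2 : ((w0, w0) : W × W) ∈ trU E U' := by
    by_contra hd
    have := key U' hU2 hd
    omega
  exact hne (eq_of_mem_trU E hU hU1 hU2 (fun h0 => h.w0 (congrArg Prod.fst h0)) d1 d2)

/-- ROW U6 -/
theorem upper_U6 (E : Ext q P) (h : Two q om Q w0) (hnd : Nd om) :
    T (P × P) ≤ 2 ^ finrank (ZMod 2) W + 2 ∧ (finrank (ZMod 2) W = 1 → T (P × P) ≤ 3) ∧
      ((∀ A : Submodule (ZMod 2) V, TS Q A → 2 * finrank (ZMod 2) A < finrank (ZMod 2) V) →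
        T (P × P) ≤ 3) := by
  obtain ⟨h1, h2⟩ := upper_gen E h.w0 h.be hnd
  refine ⟨h1, h2, fun hno => ?_⟩
  obtain ⟨m, hm⟩ := even_finrank _ V om h.alt hnd rfl
  exact upper_minus E h hnd (m := m) (by omega) fun A hA => by
    have := hno A hA
    omega

/-- ROW U7 -/
theorem upper_U7 (E : Ext q P) (h : Two q om Q w0) (hnd : Nd om) {m : ℕ}
    (hm : finrank (ZMod 2) V = 2 * m) (hm1 : 1 ≤ m) :
    (Odd m → T (P × P) ≤ 4) ∧ (Even m → T (P × P) ≤ 2 ^ (m - 1) + 3) := by
  classical
  rw [← Nat.not_even_iff_odd]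
  have hfP : Finite P := Nat.finite_of_card_ne_zero (by
    rw [card_P E]
    exact pow_ne_zero _ (by omega))
  have hw0 := h.w0
  -- it suffices to consider a fixed family
  suffices key : ∀ 𝒰 : Finset (Subgroup (P × P)), IsPCP (Nat.card P) 𝒰 →
      𝒰.card ≤ 4 ∨ (¬ Even m → 𝒰.card ≤ 4) ∧ 𝒰.card ≤ 2 ^ (m - 1) + 3 by
    refine ⟨fun hodd => T_prod_le fun 𝒰 hU => ?_, fun hev => T_prod_le fun 𝒰 hU => ?_⟩
    · rcases key 𝒰 hU with h1 | h1
      · exact h1
      · exact h1.1 hodd
    · rcases key 𝒰 hU with h1 | h1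
      · have h2 : 2 ≤ m := by
          obtain ⟨k, hk⟩ := hev
          omega
        have h3 : 2 ^ 1 ≤ 2 ^ (m - 1) := Nat.pow_le_pow_right (by norm_num) (by omega)
        omega
      · exact h1.2
  intro 𝒰 hU
  -- the traces on the plane of the multiples of `w0`
  let Y : Subgroup (P × P) → Submodule (ZMod 2) (ZMod 2 × ZMod 2) := fun U =>
    (trU E U).comap (line w0)
  have hY : ∀ (U : Subgroup (P × P)) (a b : ZMod 2), (a, b) ∈ Y U ↔
      ((a • w0, b • w0) : W × W) ∈ trU E U := fun U a b => Iff.rfl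
  have hYd : ∀ U ∈ 𝒰, ∀ U' ∈ 𝒰, U ≠ U' → Y U ⊓ Y U' = ⊥ := by
    intro U hU1 U' hU2 hne
    show (trU E U).comap (line w0) ⊓ (trU E U').comap (line w0) = ⊥
    rw [← Submodule.comap_inf, trU_inf E hU hU1 hU2 hne]
    exact line_ker hw0
  have hpw : ∀ (U : Subgroup (P × P)), ∀ x ∈ imU E U, (Q x.1, Q x.2) ∈ Y U := by
    intro U x hx
    rw [hY, ← h.pw, ← h.pw]
    exact pw_mem E U hx
  set I := 𝒰.filter fun U => Y U = ⊥ with hI
  set J := 𝒰.filter fun U => Y U ≠ ⊥ with hJ
  have hIJ : I.card + J.card = 𝒰.card := Finset.card_filter_add_card_filter_not _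
  have hJ𝒰 : J ⊆ 𝒰 := Finset.filter_subset _ _
  have hI𝒰 : I ⊆ 𝒰 := Finset.filter_subset _ _
  have hIQ : ∀ U ∈ I, ∀ x ∈ imU E U, Q x.1 = 0 ∧ Q x.2 = 0 := by
    intro U hU1 x hx
    have h1 := hpw U x hx
    rw [(Finset.mem_filter.1 hU1).2, Submodule.mem_bot] at h1
    exact ⟨congrArg Prod.fst h1, congrArg Prod.snd h1⟩
  have hYk : ∀ U ∈ J, 2 ≤ Nat.card (Y U) := by
    intro U hU1
    have h1 := (Finset.mem_filter.1 hU1).2
    rw [card_sub]
    have h2 : 1 ≤ finrank (ZMod 2) (Y U) := by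
      rw [Nat.one_le_iff_ne_zero]
      intro h3
      exact h1 (Submodule.finrank_eq_zero.1 h3)
    calc 2 = 2 ^ 1 := (pow_one 2).symm
      _ ≤ _ := Nat.pow_le_pow_right (by norm_num) h2
  have hJd : ∀ U ∈ J, ∀ U' ∈ J, U ≠ U' → Y U ⊓ Y U' = ⊥ := fun U hU1 U' hU2 =>
    hYd U (hJ𝒰 hU1) U' (hJ𝒰 hU2)
  have hJ1 : J.card ≤ 3 := by
    have h1 := card_mul_le_set J Y hJd 2 hYk (Finset.univ.erase (0 : ZMod 2 × ZMod 2)) (by
      intro U _ y _ hy0
      rw [Finset.mem_erase]
      exact ⟨hy0, Finset.mem_univ _⟩)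
    rw [Finset.card_erase_of_mem (Finset.mem_univ _), Finset.card_univ, Fintype.card_prod,
      ZMod.card] at h1
    omega
  -- members of which the images under a projection are totally singular
  have hsing : ∀ (π : (V × V) →ₗ[ZMod 2] V), Function.Surjective π →
      ∀ K : Finset (Subgroup (P × P)), K ⊆ 𝒰 → (∀ U ∈ K, ∀ x ∈ imU E U, Q (π x) = 0) →
        K.card ≤ 2 ^ (m - 1) + 1 ∧ (¬ Even m → K.card ≤ 2) := by
    intro π hπ K hK hKQ
    refine sing_family h.add hnd hm hm1 K (fun U => (imU E U).map π) ?_ ?_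
    · rintro U hU1 _ ⟨x, hx, rfl⟩
      exact hKQ U hU1 x hx
    · intro U hU1 U' hU2 hne
      show (imU E U).map π ⊔ (imU E U').map π = ⊤
      rw [← Submodule.map_sup, imU_sup E hU (hK hU1) (hK hU2) hne, Submodule.map_top,
        LinearMap.range_eq_top.2 hπ]
  have hs1 : Function.Surjective (LinearMap.fst (ZMod 2) V V) := fun v => ⟨(v, 0), rfl⟩
  have hs2 : Function.Surjective (LinearMap.snd (ZMod 2) V V) := fun v => ⟨(0, v), rfl⟩
  rcases Nat.lt_or_ge I.card 2 with hI1 | hI2
  · left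
    omega
  right
  have hIb := hsing _ hs1 I hI𝒰 (fun U hU1 x hx => (hIQ U hU1 x hx).1)
  rcases Nat.lt_or_ge J.card 2 with hJ2 | hJ2
  · refine ⟨fun hodd => ?_, ?_⟩
    · have := hIb.2 hodd
      omega
    · omega
  -- an axis member with a trace of dimension one on the plane
  have hnotI : ∀ U ∈ J, U ∉ I := fun U hU1 hU2 =>
    (Finset.mem_filter.1 hU1).2 (Finset.mem_filter.1 hU2).2
  have hax : ∃ U ∈ J, (∀ y ∈ Y U, y.1 = 0) ∨ ∀ y ∈ Y U, y.2 = 0 := by
    by_contra hcon
    push Not at hcon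
    -- every trace contains `(1, 1)`, or it is the whole plane
    have h11 : ∀ U ∈ J, ((1 : ZMod 2), (1 : ZMod 2)) ∈ Y U := by
      intro U hU1
      obtain ⟨⟨a, ha, ha1⟩, b, hb, hb2⟩ := hcon U hU1
      have ea : a.1 = 1 := eq_one_of_ne ha1
      have eb : b.2 = 1 := eq_one_of_ne hb2
      by_cases ha2 : a.2 = 0
      · by_cases hb1 : b.1 = 0
        · have h1 := (Y U).add_mem ha hb
          have h2 : a + b = ((1 : ZMod 2), (1 : ZMod 2)) := by
            apply Prod.ext
            · show a.1 + b.1 = 1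
              rw [ea, hb1, add_zero]
            · show a.2 + b.2 = 1
              rw [ha2, eb, zero_add]
          rwa [h2] at h1
        · have h2 : b = ((1 : ZMod 2), (1 : ZMod 2)) := Prod.ext (eq_one_of_ne hb1) eb
          rwa [h2] at hb
      · have h2 : a = ((1 : ZMod 2), (1 : ZMod 2)) := Prod.ext ea (eq_one_of_ne ha2)
        rwa [h2] at ha
    obtain ⟨U, hU1, U', hU2, hne⟩ := Finset.one_lt_card.1 (show 1 < J.card by omega)
    have h1 : ((1 : ZMod 2), (1 : ZMod 2)) ∈ Y U ⊓ Y U' := ⟨h11 U hU1, h11 U' hU2⟩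
    rw [hJd U hU1 U' hU2 hne, Submodule.mem_bot] at h1
    exact one_ne_zero (congrArg Prod.fst h1)
  obtain ⟨U, hU1, hUax⟩ := hax
  have hins : ∀ U' ∈ insert U I, U' ∈ 𝒰 := by
    intro U' hU'
    rw [Finset.mem_insert] at hU'
    rcases hU' with rfl | hU'
    · exact hJ𝒰 hU1
    · exact hI𝒰 hU'
  have hb : (insert U I).card ≤ 2 ^ (m - 1) + 1 ∧ (¬ Even m → (insert U I).card ≤ 2) := by
    rcases hUax with h1 | h1
    · refine hsing _ hs1 (insert U I) hins ?_
      intro U' hU' x hx
      rw [Finset.mem_insert] at hU'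
      rcases hU' with rfl | hU'
      · exact h1 _ (hpw _ x hx)
      · exact (hIQ U' hU' x hx).1
    · refine hsing _ hs2 (insert U I) hins ?_
      intro U' hU' x hx
      rw [Finset.mem_insert] at hU'
      rcases hU' with rfl | hU'
      · exact h1 _ (hpw _ x hx)
      · exact (hIQ U' hU' x hx).2
  rw [Finset.card_insert_of_notMem (hnotI U hU1)] at hb
  refine ⟨fun hodd => ?_, ?_⟩
  · have := hb.2 hodd
    omega
  · omega

end mem3

end two

end Pool.Agent.XV2
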