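import Pool.Agent.XV2.L3
import Pool.Agent.XV2.N2
import Pool.Agent.XV2.U567
import Pool.Agent.XV2.L4
import Pool.Agent.XV2.L5
import Pool.Agent.XV2.Kd
import Pool.Agent.XV.Exact
import Pool.Agent.XV.Hyp

/-!
# 2-groups with Frattini subgroup of order two: the exact value
-/

set_option autoImplicit false

open Module

namespace Pool.Agent.XV2

open Pool.Agent.APG Pool.Agent.XV Pool.Agent.Helper19.PCP

section

variable {V W : Type} [AddCommGroup V] [AddCommGroup W]
  [Module (ZMod 2) V] [Module (ZMod 2) W] {q : Dat 2 V W} {P : Type} [Group P]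

/-- a lift of `v` is central if and only if `v` is in the radical -/
lemma center_iff2 (E : Ext q P) {om : V →ₗ[ZMod 2] V →ₗ[ZMod 2] ZMod 2}
    {Q : V → ZMod 2} {w0 : W} (h : Two q om Q w0) (x : P) :
    x ∈ Subgroup.center P ↔ ∀ v', om (E.pr x).toAdd v' = 0 := by
  have key : ∀ y : P, (y * x = x * y ↔ om (E.pr x).toAdd (E.pr y).toAdd = 0) := by
    intro y
    have h1 := E.comm x y
    rw [h.be] at h1
    constructor
    · intro hc
      have h2 : x * y * x⁻¹ * y⁻¹ = 1 := by rw [← hc]; group
      rw [h2] at h1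
      have h3 : Multiplicative.ofAdd (om (E.pr x).toAdd (E.pr y).toAdd • w0) = 1 :=
        E.inj (by rw [← h1, map_one])
      have h4 : om (E.pr x).toAdd (E.pr y).toAdd • w0 = 0 := h3
      rcases smul_eq_zero.1 h4 with h5 | h5
      · exact h5
      · exact absurd h5 h.w0
    · intro h0
      rw [h0, zero_smul, ofAdd_zero, map_one, mul_inv_eq_one, mul_inv_eq_iff_eq_mul] at h1
      exact h1.symm
  rw [Subgroup.mem_center_iff]
  constructor
  · intro hx v'
    obtain ⟨y, hy⟩ := E.surj (Multiplicative.ofAdd v')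
    have := (key y).1 (hx y)
    rw [hy] at this
    exact this
  · intro hx y
    exact (key y).2 (hx _)

lemma pow_iff2 (E : Ext q P) {om : V →ₗ[ZMod 2] V →ₗ[ZMod 2] ZMod 2}
    {Q : V → ZMod 2} {w0 : W} (h : Two q om Q w0) (x : P) :
    x ^ 2 = 1 ↔ Q (E.pr x).toAdd = 0 := by
  have h1 := E.pow x
  rw [h.pw] at h1
  constructor
  · intro h2
    rw [h2] at h1
    have h3 : Multiplicative.ofAdd (Q (E.pr x).toAdd • w0) = 1 :=
      E.inj (by rw [← h1, map_one])
    have h4 : Q (E.pr x).toAdd • w0 = 0 := h3
    rcases smul_eq_zero.1 h4 with h5 | h5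
    · exact h5
    · exact absurd h5 h.w0
  · intro h0
    rw [h0, zero_smul, ofAdd_zero, map_one] at h1
    exact h1

lemma center_eq2 (E : Ext q P) {om : V →ₗ[ZMod 2] V →ₗ[ZMod 2] ZMod 2}
    {Q : V → ZMod 2} {w0 : W} (h : Two q om Q w0) (hnd : Nd om) :
    Subgroup.center P = E.inc.range := by
  rw [← E.exact]
  ext x
  rw [center_iff2 E h, MonoidHom.mem_ker]
  constructor
  · intro hx
    have := hnd _ hx
    exact this
  · intro hx v'
    rw [hx]
    show om (0 : V) v' = 0
    rw [map_zero, LinearMap.zero_apply]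

lemma card_incr (E : Ext q P) : Nat.card E.inc.range = Nat.card W :=
  Nat.card_congr ((MonoidHom.ofInjective E.inj).symm.toEquiv.trans Multiplicative.toAdd)

lemma card_center2 (E : Ext q P) [Finite V] [Finite W]
    {om : V →ₗ[ZMod 2] V →ₗ[ZMod 2] ZMod 2}
    {Q : V → ZMod 2} {w0 : W} (h : Two q om Q w0) (hnd : Nd om) :
    Nat.card (Subgroup.center P) = 2 ^ finrank (ZMod 2) W := by
  rw [center_eq2 E h hnd, card_incr, Module.natCard_eq_pow_finrank (K := ZMod 2) (V := W),
    Nat.card_zmod]

/-- totally singular subspaces are isotropic, hence small -/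
lemma ts_le [Finite V] {om : V →ₗ[ZMod 2] V →ₗ[ZMod 2] ZMod 2} {Q : V → ZMod 2}
    (hadd : ∀ v v', Q (v + v') = Q v + Q v' + om v v') (hnd : Nd om)
    {A : Submodule (ZMod 2) V} (hA : TS Q A) : 2 * finrank (ZMod 2) A ≤ finrank (ZMod 2) V := by
  have hfin : Module.Finite (ZMod 2) V := Module.Finite.of_finite
  have h0 : ∀ a ∈ A, ∀ b ∈ A, om a b = 0 := by
    intro a ha b hb
    have h1 := hadd a b
    rw [hA _ (A.add_mem ha hb), hA a ha, hA b hb, add_zero, zero_add] at h1
    exact h1.symm
  let f : (A × A) →ₗ[ZMod 2] V × V := A.subtype.prodMap A.subtype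
  have hf : Function.Injective f := by
    intro x y hxy
    have h1 := congrArg Prod.fst hxy
    have h2 := congrArg Prod.snd hxy
    exact Prod.ext (Subtype.ext h1) (Subtype.ext h2)
  have h1 := (iso_le hnd (l1 := 1) (l2 := 1) one_ne_zero one_ne_zero (LinearMap.range f) (by
    rintro _ ⟨x, rfl⟩ _ ⟨y, rfl⟩
    show 1 * om x.1 y.1 + 1 * om x.2 y.2 = 0
    rw [h0 _ x.1.2 _ y.1.2, h0 _ x.2.2 _ y.2.2, mul_zero, add_zero])).1
  rw [LinearMap.finrank_range_of_inj hf, finrank_prod] at h1
  omega

/-- elementary abelian subgroups give totally singular subspaces -/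
lemma exists_ts_iff (E : Ext q P) [Finite V] [Finite W] [Finite P]
    {om : V →ₗ[ZMod 2] V →ₗ[ZMod 2] ZMod 2}
    {Q : V → ZMod 2} {w0 : W} (h : Two q om Q w0) (hnd : Nd om) {m : ℕ}
    (hm : finrank (ZMod 2) V = 2 * m) :
    (∃ A : Submodule (ZMod 2) V, TS Q A ∧ finrank (ZMod 2) A = m) ↔
    ∃ R : Subgroup P, Nat.card R = 2 ^ (m + finrank (ZMod 2) W) ∧ ∀ x ∈ R, x ^ 2 = 1 := by
  have hVf : FiniteDimensional (ZMod 2) V := Module.Finite.of_finite
  have hWf : FiniteDimensional (ZMod 2) W := Module.Finite.of_finite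
  have hcW : Nat.card W = 2 ^ finrank (ZMod 2) W := by
    rw [Module.natCard_eq_pow_finrank (K := ZMod 2) (V := W), Nat.card_zmod]
  constructor
  · rintro ⟨A, hA, hd⟩
    let A' : Subgroup (Multiplicative V) := AddSubgroup.toSubgroup A.toAddSubgroup
    have hA' : ∀ v : Multiplicative V, v ∈ A' ↔ v.toAdd ∈ A := fun v => Iff.rfl
    refine ⟨A'.comap E.pr, ?_, ?_⟩
    · have h1 : Nat.card (A'.comap E.pr) = Nat.card A' * Nat.card E.pr.ker := by
        have h2 := Subgroup.card_mul_index (A'.comap E.pr)
        have h3 := Subgroup.card_mul_index A'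
        have h4 := Subgroup.card_mul_index E.pr.ker
        rw [Subgroup.index_comap_of_surjective A' E.surj] at h2
        have h5 : E.pr.ker.index = Nat.card (Multiplicative V) := by
          rw [Subgroup.index_ker, MonoidHom.range_eq_top.2 E.surj]
          exact Nat.card_congr Subgroup.topEquiv.toEquiv
        rw [h5, ← h3] at h4
        have h6 : A'.index ≠ 0 := Subgroup.index_ne_zero_of_finite
        have h7 : Nat.card (A'.comap E.pr) * A'.index = Nat.card A' * Nat.card E.pr.ker * A'.index := by
          rw [h2, ← h4]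
          ring
        exact Nat.eq_of_mul_eq_mul_right (Nat.pos_of_ne_zero h6) h7
      rw [h1, E.exact, card_incr, hcW]
      have h8 : Nat.card A' = 2 ^ m := by
        have h9 : Nat.card A' = Nat.card A := Nat.card_congr
          { toFun := fun x => ⟨x.1.toAdd, x.2⟩
            invFun := fun x => ⟨Multiplicative.ofAdd x.1, x.2⟩
            left_inv := fun _ => rfl
            right_inv := fun _ => rfl }
        rw [h9, Module.natCard_eq_pow_finrank (K := ZMod 2) (V := A), Nat.card_zmod, hd]
      rw [h8, pow_add]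
    · intro x hx
      exact (pow_iff2 E h x).2 (hA _ hx)
  · rintro ⟨R, hR, hR2⟩
    let A' : Subgroup (Multiplicative V) := R.map E.pr
    let A : Submodule (ZMod 2) V :=
      { carrier := {v | Multiplicative.ofAdd v ∈ A'}
        add_mem' := fun {a b} ha hb => A'.mul_mem ha hb
        zero_mem' := A'.one_mem
        smul_mem' := fun c a ha => by
          have hc : c = 0 ∨ c = 1 := by
            revert c
            decide
          rcases hc with rfl | rfl
          · rw [zero_smul]
            exact A'.one_mem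
          · rw [one_smul]
            exact ha }
    have hA : TS Q A := by
      rintro a ⟨x, hx, hxa⟩
      have h1 := (pow_iff2 E h x).1 (hR2 x hx)
      rw [hxa] at h1
      exact h1
    have hle := ts_le h.add hnd hA
    refine ⟨A, hA, ?_⟩
    have hge : m ≤ finrank (ZMod 2) A := by
      have h1 : Nat.card A' = 2 ^ finrank (ZMod 2) A := by
        have h9 : Nat.card A' = Nat.card A := Nat.card_congr
          { toFun := fun x => ⟨x.1.toAdd, x.2⟩
            invFun := fun x => ⟨Multiplicative.ofAdd x.1, x.2⟩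
            left_inv := fun _ => rfl
            right_inv := fun _ => rfl }
        rw [h9, Module.natCard_eq_pow_finrank (K := ZMod 2) (V := A), Nat.card_zmod]
      have h2 : Nat.card R ≤ Nat.card A' * Nat.card W := by
        let f : R →* A' := E.pr.subgroupMap R
        have h3 := Subgroup.card_mul_index f.ker
        rw [Subgroup.index_ker, MonoidHom.range_eq_top.2 (E.pr.subgroupMap_surjective R)] at h3
        have h4 : Nat.card (⊤ : Subgroup A') = Nat.card A' :=
          Nat.card_congr Subgroup.topEquiv.toEquiv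
        have h5 : Nat.card f.ker ≤ Nat.card W := by
          rw [← card_incr E]
          refine Nat.card_le_card_of_injective
            (fun x : f.ker => (⟨x.1.1, ?_⟩ : E.inc.range)) ?_
          · rw [← E.exact]
            have h6 : f x.1 = 1 := x.2
            exact congrArg Subtype.val h6
          · intro x y hxy
            have h7 : x.1.1 = y.1.1 := congrArg (fun z : E.inc.range => (z : P)) hxy
            exact Subtype.ext (Subtype.ext h7)
        calc Nat.card R = Nat.card f.ker * Nat.card (⊤ : Subgroup A') := h3.symm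
          _ = Nat.card f.ker * Nat.card A' := by rw [h4]
          _ ≤ Nat.card W * Nat.card A' := Nat.mul_le_mul_right _ h5
          _ = Nat.card A' * Nat.card W := Nat.mul_comm _ _
      rw [hR, h1, hcW, ← pow_add] at h2
      have h3 := (Nat.pow_le_pow_iff_right (le_refl 2)).1 h2
      omega
    omega

/-- a plus type group is isomorphic to the model group -/
theorem iso_model2 (E : Ext q P) [Finite V] [Finite W]
    {om : V →ₗ[ZMod 2] V →ₗ[ZMod 2] ZMod 2}
    {Q : V → ZMod 2} {w0 : W} (h : Two q om Q w0) (hnd : Nd om)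
    {D K : Type} [AddCommGroup D] [Module (ZMod 2) D] [Finite D] [Field K] [Algebra (ZMod 2) K]
    [Finite K] (dot : D →ₗ[ZMod 2] D →ₗ[ZMod 2] ZMod 2) (hdot : Nd dot)
    {A : Submodule (ZMod 2) V} (hA : TS Q A)
    (hV : finrank (ZMod 2) V = 2 * finrank (ZMod 2) D)
    (hAD : finrank (ZMod 2) A = finrank (ZMod 2) D)
    (hW : finrank (ZMod 2) W = finrank (ZMod 2) K) :
    Nonempty (P ≃* HG dot (1 : K)) := by
  have hVf : FiniteDimensional (ZMod 2) V := Module.Finite.of_finite
  have hWf : FiniteDimensional (ZMod 2) W := Module.Finite.of_finite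
  have hDf : FiniteDimensional (ZMod 2) D := Module.Finite.of_finite
  obtain ⟨e, he⟩ := Pool.Agent.XV.exists_hyp dot hdot om h.alt hnd Q h.add A hA hV hAD
  have heo : ∀ v v', om v v' = dot (e v).1 (e v').2 + dot (e v').1 (e v).2 := by
    intro v v'
    have h1 := h.add v v'
    rw [he, he, he, map_add] at h1
    have h2 : dot ((e v + e v').1) ((e v + e v').2) = dot (e v).1 (e v).2 + dot (e v').1 (e v').2 +
        (dot (e v).1 (e v').2 + dot (e v').1 (e v).2) := by
      show dot ((e v).1 + (e v').1) ((e v).2 + (e v').2) = _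
      rw [map_add, map_add, LinearMap.add_apply, LinearMap.add_apply]
      ring
    rw [h2] at h1
    exact (add_left_cancel h1).symm
  let g : W ≃ₗ[ZMod 2] K := LinearEquiv.ofFinrankEq W K hW
  have hg : g w0 ≠ 0 := fun h0 => h.w0 (g.map_eq_zero_iff.1 h0)
  let m : K ≃ₗ[ZMod 2] K := LinearEquiv.ofLinearMap
    (LinearMap.mulLeft (ZMod 2) (g w0)⁻¹) (LinearMap.mulLeft (ZMod 2) (g w0))
    (by
      apply LinearMap.ext
      intro x
      show (g w0)⁻¹ * (g w0 * x) = x
      rw [← mul_assoc, inv_mul_cancel₀ hg, one_mul])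
    (by
      apply LinearMap.ext
      intro x
      show g w0 * ((g w0)⁻¹ * x) = x
      rw [← mul_assoc, mul_inv_cancel₀ hg, one_mul])
  have hm : ∀ c : ZMod 2, (g.trans m) (c • w0) = c • (1 : K) := by
    intro c
    rw [map_smul]
    congr 1
    show (g w0)⁻¹ * g w0 = 1
    exact inv_mul_cancel₀ hg
  let E' : Ext (hdat dot (1 : K)) P :=
    Ext.transport E e (g.trans m)
      (by
        intro x y
        rw [hdat_be, h.be, hm, heo])
      (by
        intro x
        rw [hdat_pw, h.pw, hm, he])
  exact Ext.iso E' (HG.toExt dot (1 : K))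

end

/-- the dot product -/
def dotp (m : ℕ) : (Fin m → ZMod 2) →ₗ[ZMod 2] (Fin m → ZMod 2) →ₗ[ZMod 2] ZMod 2 :=
  LinearMap.mk₂ (ZMod 2) (fun a b => ∑ i, a i * b i)
    (fun a a' b => by
      rw [← Finset.sum_add_distrib]
      exact Finset.sum_congr rfl (fun i _ => by rw [Pi.add_apply, add_mul]))
    (fun c a b => by
      rw [Finset.smul_sum]
      exact Finset.sum_congr rfl (fun i _ => by rw [Pi.smul_apply, smul_mul_assoc]))
    (fun a b b' => by
      rw [← Finset.sum_add_distrib]
      exact Finset.sum_congr rfl (fun i _ => by rw [Pi.add_apply, mul_add]))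
    (fun c a b => by
      rw [Finset.smul_sum]
      exact Finset.sum_congr rfl (fun i _ => by rw [Pi.smul_apply, mul_smul_comm]))

lemma dotp_apply (m : ℕ) (a b : Fin m → ZMod 2) : dotp m a b = ∑ i, a i * b i := rfl

lemma dotp_symm (m : ℕ) (a b : Fin m → ZMod 2) : dotp m a b = dotp m b a := by
  rw [dotp_apply, dotp_apply]
  exact Finset.sum_congr rfl (fun i _ => mul_comm _ _)

lemma dotp_nd (m : ℕ) : Nd (dotp m) := by
  intro a ha
  funext i
  have h := ha (Pi.single i 1)
  rw [dotp_apply, Finset.sum_eq_single i] at h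
  · rw [Pi.single_eq_same, mul_one] at h
    exact h
  · intro j _ hj
    rw [Pi.single_eq_of_ne hj, mul_zero]
  · intro hi
    exact absurd (Finset.mem_univ i) hi

/-- ROW Z2 -/
theorem frattini_two (P : Type) [Group P] [Finite P] (hP : IsPGroup 2 P)
    (hna : ∃ a b : P, a * b ≠ b * a) (hF : Nat.card (frattini P) = 2) :
    ((∃ z ∈ Subgroup.center P, z ^ 2 ≠ 1) → T (P × P) = 3) ∧
    ((∀ z ∈ Subgroup.center P, z ^ 2 = 1) → ∀ m c : ℕ, Nat.card (Subgroup.center P) = 2 ^ c →
      Nat.card P = 2 ^ (2 * m + c) →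
      ((c = 1 ∨ ¬ ∃ R : Subgroup P, Nat.card R = 2 ^ (m + c) ∧ ∀ x ∈ R, x ^ 2 = 1) →
        T (P × P) = 3) ∧
      (c ≠ 1 → (∃ R : Subgroup P, Nat.card R = 2 ^ (m + c) ∧ ∀ x ∈ R, x ^ 2 = 1) →
        T (P × P) = if Odd m then 4 else if c < m then 2 ^ c + 2 else 2 ^ (m - 1) + 3)) := by
  obtain ⟨d, c0, q, om, Q, w0, h, hrad, ⟨E⟩⟩ := exists_two P hP hna hF
  have hnt : Nontrivial P := by
    obtain ⟨a, b, hab⟩ := hna
    exact ⟨⟨a * b, b * a, hab⟩⟩
  refine ⟨?_, ?_⟩
  · rintro ⟨z, hz, hzp⟩
    have h1 := (center_iff2 E h z).1 hz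
    have h2 : Q (E.pr z).toAdd ≠ 0 := fun h3 => hzp ((pow_iff2 E h z).2 h3)
    exact le_antisymm (upper_U5 E h hrad h1 h2) three_le_T
  · intro hz m c hc hcard
    have hnd : Nd om := by
      intro v hv
      obtain ⟨z, hz1⟩ := E.surj (Multiplicative.ofAdd v)
      have h1 : z ∈ Subgroup.center P := by
        rw [center_iff2 E h]
        intro v'
        rw [hz1]
        exact hv v'
      have h2 := (pow_iff2 E h z).1 (hz z h1)
      rw [hz1] at h2
      exact hrad v hv h2
    have h1 : c = c0 := by
      rw [card_center2 E h hnd, Module.finrank_fin_fun] at hc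
      exact (Nat.pow_right_injective (le_refl 2) hc).symm
    have h2 : d = 2 * m := by
      rw [E.card, Module.finrank_fin_fun, Module.finrank_fin_fun] at hcard
      have := Nat.pow_right_injective (le_refl 2) hcard
      omega
    have hc1 : 1 ≤ c0 := by
      rcases Nat.eq_zero_or_pos c0 with h3 | h3
      · exfalso
        subst h3
        exact h.w0 (Subsingleton.elim _ _)
      · exact h3
    have hm1 : 1 ≤ m := by
      rcases Nat.eq_zero_or_pos m with h3 | h3
      · exfalso
        obtain ⟨a, b, hab⟩ := hna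
        apply hab
        have h4 : b ∈ Subgroup.center P := by
          rw [center_iff2 E h]
          intro v'
          have h5 : v' = 0 := by
            have : d = 0 := by omega
            subst this
            exact Subsingleton.elim _ _
          rw [h5, map_zero]
        exact (Subgroup.mem_center_iff.1 h4 a)
      · exact h3
    have hV : finrank (ZMod 2) (Fin d → ZMod 2) = 2 * m := by rw [Module.finrank_fin_fun, h2]
    have hW : finrank (ZMod 2) (Fin c0 → ZMod 2) = c := by rw [Module.finrank_fin_fun, h1]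
    have hex := exists_ts_iff E h hnd hV
    rw [hW] at hex
    refine ⟨?_, ?_⟩
    · rintro (h3 | h3)
      · exact le_antisymm ((upper_U6 E h hnd).2.1 (by rw [hW, h3])) three_le_T
      · refine le_antisymm ((upper_U6 E h hnd).2.2 ?_) three_le_T
        intro A hA
        have h4 := ts_le h.add hnd hA
        rw [hV] at h4 ⊢
        have h5 : finrank (ZMod 2) A ≠ m := fun h6 => h3 (hex.1 ⟨A, hA, h6⟩)
        omega
    · intro h3 h4
      obtain ⟨A, hA, hAm⟩ := hex.2 h4
      have hfc : finrank (ZMod 2) (GaloisField 2 c) = c := GaloisField.finrank 2 (by omega)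
      split_ifs with h5 h6
      · refine le_antisymm ((upper_U7 E h hnd hV hm1).1 h5) ?_
        obtain ⟨g⟩ := iso_model2 (K := GaloisField 2 c) E h hnd (dotp m) (dotp_nd m) hA
          (by rw [hV, Module.finrank_fin_fun]) (by rw [hAm, Module.finrank_fin_fun])
          (by rw [hW, hfc])
        refine le_trans ?_ (T_congr_le g.symm)
        exact lower_L3 (dotp_symm m) (by rw [Module.finrank_fin_fun]; exact hm1)
          (by rw [hfc]; omega)
      · have hev : Even m := Nat.not_odd_iff_even.1 h5
        have hm2 : 2 ≤ m := by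
          obtain ⟨k, hk⟩ := hev
          omega
        obtain ⟨D, _, _, _, dot, S, _, hsym, hdot, hDm, hS, ⟨k⟩⟩ := exists_kerdock m hev hm2
        obtain ⟨g⟩ := iso_model2 (K := GaloisField 2 c) E h hnd dot hdot hA
          (by rw [hV, hDm]) (by rw [hAm, hDm]) (by rw [hW, hfc])
        refine le_antisymm ?_ ?_
        · have := (upper_U6 E h hnd).1
          rw [hW] at this
          exact this
        · refine le_trans ?_ (T_congr_le g.symm)
          have := lower_L4 (K := GaloisField 2 c) hsym k (by rw [hfc]; omega)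
            (by rw [hfc, hDm]; omega)
            (by
              rw [hfc, hS]
              exact Nat.pow_le_pow_right (by norm_num) (by omega))
          rw [hfc] at this
          exact this
      · have hev : Even m := Nat.not_odd_iff_even.1 h5
        have hm2 : 2 ≤ m := by
          obtain ⟨k, hk⟩ := hev
          omega
        obtain ⟨D, _, _, _, dot, S, _, hsym, hdot, hDm, hS, ⟨k⟩⟩ := exists_kerdock m hev hm2
        obtain ⟨g⟩ := iso_model2 (K := GaloisField 2 c) E h hnd dot hdot hA
          (by rw [hV, hDm]) (by rw [hAm, hDm]) (by rw [hW, hfc])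
        refine le_antisymm ((upper_U7 E h hnd hV hm1).2 hev) ?_
        refine le_trans ?_ (T_congr_le g.symm)
        have h7 : 2 ≤ 2 ^ (m - 1) := by
          calc 2 = 2 ^ 1 := (pow_one 2).symm
            _ ≤ 2 ^ (m - 1) := Nat.pow_le_pow_right (by norm_num) (by omega)
        have h8 : 2 ^ m ≤ 2 ^ c := Nat.pow_le_pow_right (by norm_num) (by omega)
        have h9 : 2 ^ m = 2 * 2 ^ (m - 1) := by
          rw [← pow_succ']
          congr 1
          omega
        have := lower_L5 (K := GaloisField 2 c) hsym k (by rw [hfc, hDm]; omega)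
          (by rw [hS]; exact h7) (by rw [hfc, hS]; omega)
        rw [hS] at this
        exact this

end Pool.Agent.XV2
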